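import Pool.Agent.H395R5.VI.Defs

set_option autoImplicit false

namespace Pool.Agent.H395VI

open scoped BigOperators

/-- The dimension count: a bounded polar polytope has at least `dim E` points. -/
theorem card_ge {E ι : Type} [NormedAddCommGroup E] [InnerProductSpace ℝ E]
    [FiniteDimensional ℝ E] [Fintype ι] (x : ι → E) (hQ : ∀ z, InQ x z → ‖z‖ ≤ 1) :
    Module.finrank ℝ E ≤ Fintype.card ι := by
  by_contra hlt
  push Not at hlt
  classical
  let S : Submodule ℝ E := Submodule.span ℝ (Set.range x)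
  have hS : Module.finrank ℝ S ≤ Fintype.card ι := finrank_range_le_card x
  have hne : S ≠ ⊤ := by
    intro h
    have : Module.finrank ℝ S = Module.finrank ℝ E := by rw [h]; exact finrank_top ℝ E
    omega
  have hperp : Sᗮ ≠ ⊥ := by
    intro h
    exact hne ((Submodule.orthogonal_eq_bot_iff).1 h)
  obtain ⟨z, hz, hz0⟩ := Submodule.exists_mem_ne_zero_of_ne_bot hperp
  have hzi : ∀ i, inner ℝ (x i) z = 0 := fun i =>
    (Submodule.mem_orthogonal S z).1 hz (x i) (Submodule.subset_span ⟨i, rfl⟩)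
  have hnz : 0 < ‖z‖ := norm_pos_iff.2 hz0
  have h1 := hQ ((2 / ‖z‖) • z) (by
    intro i
    rw [inner_smul_right, hzi i]
    norm_num)
  rw [norm_smul, Real.norm_of_nonneg (by positivity), div_mul_cancel₀ _ hnz.ne'] at h1
  norm_num at h1

/-- The downward induction. -/
theorem claim_all (hB : BaseStmt) (hS : StepStmt) {E ι : Type} [NormedAddCommGroup E]
    [InnerProductSpace ℝ E] [FiniteDimensional ℝ E] [Fintype ι] [DecidableEq ι]
    (x : ι → E) (m : ℕ) (hm : Fintype.card ι = m + Module.finrank ℝ E)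
    (hQ : ∀ z, InQ x z → ‖z‖ ≤ 1) :
    ∀ (k : ℕ) (tau : Finset ι), LinearIndependent ℝ (fun i : tau => x i) →
      tau.card + k = Module.finrank ℝ E → ∀ y, InQ x y →
      (∀ i ∈ tau, inner ℝ (x i) y = 1) → Claim x m tau y := by
  intro k
  induction k with
  | zero =>
    intro tau hli hc y hy hty
    exact hB E ι x m tau y hli (by simpa using hc) hy hty
  | succ k ih =>
    intro tau hli hc y hy hty
    refine hS E ι x m tau 1 hm hQ hli (by omega) ?_ y hy hty
    intro i hi hli' y' hy' hty'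
    refine ih (insert i tau) hli' ?_ y' hy' hty'
    rw [Finset.card_insert_of_notMem hi]
    omega

/-- The lower bound. -/
theorem lower (hB : BaseStmt) (hS : StepStmt) (hF : FinalStmt) (hP : PolarStmt)
    {E ι : Type} [NormedAddCommGroup E] [InnerProductSpace ℝ E] [FiniteDimensional ℝ E]
    [Fintype ι] (x : ι → E) (hE : 0 < Module.finrank ℝ E)
    (h : Metric.closedBall (0 : E) 1 ⊆ convexHull ℝ (Set.range x)) :
    2 * (Module.finrank ℝ E : ℝ) ^ ((3 : ℝ) / 2) ≤ ∑ i, ‖x i‖ := by
  classical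
  have hQ := hP E ι x h
  have hcard := card_ge x hQ
  obtain ⟨m, hm⟩ := Nat.exists_eq_add_of_le hcard
  have hm' : Fintype.card ι = m + Module.finrank ℝ E := by omega
  refine hF E ι x m hm' hE hQ ?_
  refine claim_all hB hS x m hm' hQ (Module.finrank ℝ E) ∅ ?_ (by simp) 0 ?_ (by simp)
  · haveI : IsEmpty (↥(∅ : Finset ι)) := ⟨fun i => absurd i.2 (Finset.notMem_empty _)⟩
    exact linearIndependent_empty_type
  · intro i
    rw [inner_zero_right]
    norm_num

/-- The theorem in the form of the frozen statement. -/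
theorem final (hB : BaseStmt) (hS : StepStmt) (hF : FinalStmt) (hP : PolarStmt)
    (hU : UpperStmt) :
    ∀ n : ℕ, 1 ≤ n →
      IsGLB
        {s : ℝ | ∃ P : Finset (EuclideanSpace ℝ (Fin n)),
            Metric.closedBall (0 : EuclideanSpace ℝ (Fin n)) 1 ⊆ convexHull ℝ (↑P : Set (EuclideanSpace ℝ (Fin n))) ∧
            s = ∑ p ∈ P, ‖p‖}
        (2 * (n : ℝ) ^ ((3 : ℝ) / 2)) := by
  intro n hn
  constructor
  · rintro s ⟨P, hP1, rfl⟩
    have hfr : Module.finrank ℝ (EuclideanSpace ℝ (Fin n)) = n := by simp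
    have key := lower hB hS hF hP (E := EuclideanSpace ℝ (Fin n)) (ι := (P : Set (EuclideanSpace ℝ (Fin n))))
      (fun i => (i : EuclideanSpace ℝ (Fin n))) (by rw [hfr]; omega)
      (by simpa using hP1)
    rw [hfr] at key
    refine key.trans (le_of_eq ?_)
    exact Finset.sum_coe_sort P (fun q => ‖q‖)
  · intro b hb
    obtain ⟨P, hP1, hP2⟩ := hU n hn
    exact hb ⟨P, hP1, hP2⟩

end Pool.Agent.H395VI
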