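import Mathlib

set_option autoImplicit false

/-! # The vertex index of the Euclidean ball: definitions and the statements of the pieces -/

namespace Pool.Agent.H395VI

open scoped BigOperators

/-- The quadratic functional of the proof. -/
noncomputable def Phi {V : Type} [NormedAddCommGroup V] [InnerProductSpace ℝ V]
    {Ω ι : Type} [Fintype Ω] (w : Ω → V) (J : Ω → Finset ι) (m : ℕ)
    (p : Ω → ℝ) (e : V) (a : ι → ℝ) : ℝ :=
  ∑ ω, p ω * (((m : ℝ) - 1) * (inner ℝ (w ω) e) ^ 2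
    - ∑ i ∈ J ω, (a i + inner ℝ (w ω) e) ^ 2)

/-- T1 (trace inequality). -/
def TraceStmt : Prop :=
  ∀ (V : Type) [NormedAddCommGroup V] [InnerProductSpace ℝ V] [FiniteDimensional ℝ V]
    (Ω ι : Type) [Fintype Ω] [Fintype ι] [DecidableEq ι]
    (w : Ω → V) (J : Ω → Finset ι) (I : Finset ι) (m : ℕ) (p : Ω → ℝ) (lam : ℝ),
    p ∈ stdSimplex ℝ Ω → (∑ ω, p ω • w ω = 0) →
    (∀ ω, p ω ≠ 0 → (J ω).card = m ∧ J ω ⊆ I) →
    I.card = m + Module.finrank ℝ V → 0 < Module.finrank ℝ V → 0 < lam →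
    ¬ (∀ e : V, ∃ a : ι → ℝ, lam * ‖e‖ ^ 2 ≤ Phi w J m p e a)

/-- T2 (clipping and homogeneity): a bound on the compact set of normalised `(e, a)` gives the
bound everywhere. -/
def ClipStmt : Prop :=
  ∀ (V : Type) [NormedAddCommGroup V] [InnerProductSpace ℝ V]
    (Ω ι : Type) [Fintype Ω] [Fintype ι] [DecidableEq ι]
    (w : Ω → V) (J : Ω → Finset ι) (m : ℕ) (p : Ω → ℝ) (lam R : ℝ),
    0 ≤ R → (∀ ω, 0 ≤ p ω) → (∀ ω, ‖w ω‖ ≤ R) →
    (∀ (e : V) (a : ι → ℝ), ‖e‖ = 1 → (∀ i, |a i| ≤ R) → Phi w J m p e a ≤ lam) →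
    ∀ (e : V) (a : ι → ℝ), Phi w J m p e a ≤ lam * ‖e‖ ^ 2

/-- T3 (the set of extremal directions is a subspace). -/
def SubspaceStmt : Prop :=
  ∀ (V : Type) [NormedAddCommGroup V] [InnerProductSpace ℝ V]
    (Ω ι : Type) [Fintype Ω] [Fintype ι] [DecidableEq ι]
    (w : Ω → V) (J : Ω → Finset ι) (m : ℕ) (p : Ω → ℝ) (lam : ℝ),
    (∀ (e : V) (a : ι → ℝ), Phi w J m p e a ≤ lam * ‖e‖ ^ 2) →
    ∃ S : Submodule ℝ V, ∀ e : V, e ∈ S ↔ ∃ a : ι → ℝ, Phi w J m p e a = lam * ‖e‖ ^ 2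

/-- T4 (minimisation over the compact convex set `M`). -/
def CoreStmt : Prop :=
  ∀ (V : Type) [NormedAddCommGroup V] [InnerProductSpace ℝ V] [FiniteDimensional ℝ V]
    (Ω ι : Type) [Fintype Ω] [Fintype ι] [DecidableEq ι]
    (w : Ω → V) (J : Ω → Finset ι) (I : Finset ι) (m : ℕ) (M : Set (Ω → ℝ)),
    IsCompact M → Convex ℝ M → M ⊆ stdSimplex ℝ Ω →
    (∀ p ∈ M, ∑ ω, p ω • w ω = 0) →
    (∀ p ∈ M, ∀ ω, p ω ≠ 0 → (J ω).card = m ∧ J ω ⊆ I) →
    I.card = m + Module.finrank ℝ V → 0 < Module.finrank ℝ V →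
    (∀ W : Submodule ℝ V, W ≠ ⊤ → ∃ p ∈ M, ∀ e ∈ W, ∀ a : ι → ℝ, Phi w J m p e a ≤ 0) →
    ∃ p ∈ M, ∀ (e : V) (a : ι → ℝ), Phi w J m p e a ≤ 0

/-- T5 (compactness step inside T4): if `Phi p` is at most `lam ‖e‖^2` for the first measure, and
the second measure is good on the extremal directions of the first one, then some convex combination
has a strictly smaller maximum on the compact set of normalised `(e, a)`. -/
def PerturbStmt : Prop :=
  ∀ (V : Type) [NormedAddCommGroup V] [InnerProductSpace ℝ V] [FiniteDimensional ℝ V]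
    (Ω ι : Type) [Fintype Ω] [Fintype ι] [DecidableEq ι]
    (w : Ω → V) (J : Ω → Finset ι) (m : ℕ) (p q : Ω → ℝ) (lam R : ℝ),
    0 < lam →
    (∀ (e : V) (a : ι → ℝ), Phi w J m p e a ≤ lam * ‖e‖ ^ 2) →
    (∀ e : V, (∃ a : ι → ℝ, Phi w J m p e a = lam * ‖e‖ ^ 2) → ∀ a : ι → ℝ, Phi w J m q e a ≤ 0) →
    ∃ t : ℝ, 0 < t ∧ t < 1 ∧ ∀ (e : V) (a : ι → ℝ), ‖e‖ = 1 → (∀ i, |a i| ≤ R) →
      Phi w J m (fun ω => (1 - t) * p ω + t * q ω) e a < lam

section Geometry

variable {E ι : Type} [NormedAddCommGroup E] [InnerProductSpace ℝ E]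

/-- `y` lies in the polar polytope of the points `x i`. -/
def InQ (x : ι → E) (y : E) : Prop := ∀ i, inner ℝ (x i) y ≤ 1

/-- `B` is a good basis: `dim E` linearly independent points `x i` whose common supporting
functional lies in the polar polytope. -/
def Good (x : ι → E) (B : Finset ι) : Prop :=
  LinearIndependent ℝ (fun i : B => x i) ∧ B.card = Module.finrank ℝ E ∧
    ∃ v : E, (∀ i ∈ B, inner ℝ (x i) v = 1) ∧ InQ x v

/-- The vertex of a good basis. -/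
noncomputable def vtx (x : ι → E) (B : Finset ι) : E :=
  letI := Classical.propDecidable (Good x B)
  if h : Good x B then h.2.2.choose else 0

/-- The inductive claim for an independent set `tau` and a point `y` of the face. -/
def Claim [Fintype ι] [DecidableEq ι] (x : ι → E) (m : ℕ) (tau : Finset ι) (y : E) : Prop :=
  ∃ p : Finset ι → ℝ, p ∈ stdSimplex ℝ (Finset ι) ∧
    (∀ B, p B ≠ 0 → Good x B ∧ tau ⊆ B) ∧
    (∑ B, p B • vtx x B = y) ∧
    ∀ (e : E) (a : ι → ℝ),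
      Phi (fun B => vtx x B - y) (fun B : Finset ι => Bᶜ) m p e a ≤ 0

/-- The same claim, only for directions in a subspace `W`. -/
def ClaimOn [Fintype ι] [DecidableEq ι] (x : ι → E) (m : ℕ) (tau : Finset ι) (y : E)
    (W : Submodule ℝ E) : Prop :=
  ∃ p : Finset ι → ℝ, p ∈ stdSimplex ℝ (Finset ι) ∧
    (∀ B, p B ≠ 0 → Good x B ∧ tau ⊆ B) ∧
    (∑ B, p B • vtx x B = y) ∧
    ∀ e ∈ W, ∀ a : ι → ℝ,
      Phi (fun B => vtx x B - y) (fun B : Finset ι => Bᶜ) m p e a ≤ 0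

end Geometry

/-- G1 (base case): if `tau` already has `dim E` elements, the point mass at `tau` works. -/
def BaseStmt : Prop :=
  ∀ (E ι : Type) [NormedAddCommGroup E] [InnerProductSpace ℝ E] [FiniteDimensional ℝ E]
    [Fintype ι] [DecidableEq ι] (x : ι → E) (m : ℕ) (tau : Finset ι) (y : E),
    LinearIndependent ℝ (fun i : tau => x i) → tau.card = Module.finrank ℝ E →
    InQ x y → (∀ i ∈ tau, inner ℝ (x i) y = 1) → Claim x m tau y

/-- G2 (moving along a line until a new constraint becomes active). -/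
def RayStmt : Prop :=
  ∀ (E ι : Type) [NormedAddCommGroup E] [InnerProductSpace ℝ E]
    [Fintype ι] [DecidableEq ι] (x : ι → E) (y k : E) (R : ℝ),
    (∀ z, InQ x z → ‖z‖ ≤ R) → InQ x y → k ≠ 0 →
    (∀ i, inner ℝ (x i) y = 1 → inner ℝ (x i) k = 0) →
    ∃ s : ℝ, 0 < s ∧ InQ x (y + s • k) ∧
      (∀ i, inner ℝ (x i) y = 1 → inner ℝ (x i) (y + s • k) = 1) ∧
      ∃ i, inner ℝ (x i) y ≠ 1 ∧ inner ℝ (x i) (y + s • k) = 1

/-- G3 (splitting): the claim on a proper subspace `W` of the face directions, for all points of the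
face, from the full claim for all larger independent sets. -/
def SplitStmt : Prop :=
  ∀ (E ι : Type) [NormedAddCommGroup E] [InnerProductSpace ℝ E] [FiniteDimensional ℝ E]
    [Fintype ι] [DecidableEq ι] (x : ι → E) (m : ℕ) (tau : Finset ι) (R : ℝ)
    (W : Submodule ℝ E),
    (∀ z, InQ x z → ‖z‖ ≤ R) →
    LinearIndependent ℝ (fun i : tau => x i) →
    (∀ i, i ∉ tau → LinearIndependent ℝ (fun j : (insert i tau : Finset ι) => x j) →
      ∀ y, InQ x y → (∀ j ∈ insert i tau, inner ℝ (x j) y = 1) → Claim x m (insert i tau) y) →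
    (∃ k : E, k ≠ 0 ∧ (∀ i ∈ tau, inner ℝ (x i) k = 0) ∧ ∀ e ∈ W, inner ℝ k e = 0) →
    ∀ y, InQ x y → (∀ i ∈ tau, inner ℝ (x i) y = 1) → ClaimOn x m tau y W

/-- G4 (one induction step, from G3 and T4). -/
def StepStmt : Prop :=
  ∀ (E ι : Type) [NormedAddCommGroup E] [InnerProductSpace ℝ E] [FiniteDimensional ℝ E]
    [Fintype ι] [DecidableEq ι] (x : ι → E) (m : ℕ) (tau : Finset ι) (R : ℝ),
    Fintype.card ι = m + Module.finrank ℝ E →
    (∀ z, InQ x z → ‖z‖ ≤ R) →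
    LinearIndependent ℝ (fun i : tau => x i) → tau.card < Module.finrank ℝ E →
    (∀ i, i ∉ tau → LinearIndependent ℝ (fun j : (insert i tau : Finset ι) => x j) →
      ∀ y, InQ x y → (∀ j ∈ insert i tau, inner ℝ (x j) y = 1) → Claim x m (insert i tau) y) →
    ∀ y, InQ x y → (∀ i ∈ tau, inner ℝ (x i) y = 1) → Claim x m tau y

/-- F1 (final computation): the claim at the origin gives the inequality. -/
def FinalStmt : Prop :=
  ∀ (E ι : Type) [NormedAddCommGroup E] [InnerProductSpace ℝ E] [FiniteDimensional ℝ E]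
    [Fintype ι] [DecidableEq ι] (x : ι → E) (m : ℕ),
    Fintype.card ι = m + Module.finrank ℝ E →
    0 < Module.finrank ℝ E →
    (∀ z, InQ x z → ‖z‖ ≤ 1) →
    Claim x m ∅ 0 →
    2 * (Module.finrank ℝ E : ℝ) ^ ((3 : ℝ) / 2) ≤ ∑ i, ‖x i‖

/-- F2 (polarity): if the unit ball is in the convex hull then the polar polytope is in the ball. -/
def PolarStmt : Prop :=
  ∀ (E ι : Type) [NormedAddCommGroup E] [InnerProductSpace ℝ E] [Fintype ι] (x : ι → E),
    Metric.closedBall (0 : E) 1 ⊆ convexHull ℝ (Set.range x) → ∀ z, InQ x z → ‖z‖ ≤ 1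

/-- U1 (the cross-polytope): the upper bound. -/
def UpperStmt : Prop :=
  ∀ n : ℕ, 1 ≤ n → ∃ P : Finset (EuclideanSpace ℝ (Fin n)),
    Metric.closedBall (0 : EuclideanSpace ℝ (Fin n)) 1 ⊆
      convexHull ℝ (↑P : Set (EuclideanSpace ℝ (Fin n))) ∧
    2 * (n : ℝ) ^ ((3 : ℝ) / 2) = ∑ p ∈ P, ‖p‖

end Pool.Agent.H395VI
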