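import Mathlib
import Pool.Agent.H395R5.VI.Defs

set_option autoImplicit false

namespace Pool.Agent.H395VI.F1

open scoped BigOperators
open Pool.Agent.H395VI

theorem vtx_spec {E ι : Type} [NormedAddCommGroup E] [InnerProductSpace ℝ E] (x : ι → E)
    (B : Finset ι) (h : Good x B) :
    (∀ i ∈ B, inner ℝ (x i) (vtx x B) = 1) ∧ InQ x (vtx x B) := by
  have e : vtx x B = h.2.2.choose := by
    unfold vtx
    rw [dif_pos h]
  rw [e]
  exact h.2.2.choose_spec

theorem elem (L P r : ℝ) (hL : 0 ≤ L) (hr : 0 ≤ r) (hP : 0 ≤ P) (h0 : L = 0 → P = 0) :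
    3 * r * P ≤ L + r ^ 3 * (4 * P ^ 3 / L ^ 2) := by
  rcases eq_or_lt_of_le hL with h | h
  · have := h0 h.symm
    subst this
    rw [← h]
    simp
  · have h2 : 0 < L ^ 2 := by positivity
    have key : 0 ≤ (L - 2 * (r * P)) ^ 2 * (L + r * P) := by positivity
    have h3 : L + r ^ 3 * (4 * P ^ 3 / L ^ 2) - 3 * r * P
        = (L - 2 * (r * P)) ^ 2 * (L + r * P) / L ^ 2 := by
      field_simp
      ring
    have h4 : 0 ≤ (L - 2 * (r * P)) ^ 2 * (L + r * P) / L ^ 2 := by positivity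
    linarith

theorem elem2 (L P s : ℝ) (hs : s = 2 * P / L ^ 2) (h0 : L = 0 → P = 0) :
    4 * P ^ 3 / L ^ 2 = 2 * (s * P) - (1 - P) * (s ^ 2 * L ^ 2) := by
  by_cases h : L = 0
  · have := h0 h
    subst this
    subst hs
    simp
  · subst hs
    field_simp
    ring

theorem main : FinalStmt := by
  intro E ι _ _ _ _ _ x m hcard hn hQ hclaim
  classical
  obtain ⟨p, hps, hgood, hmean, hphi⟩ := hclaim
  have hp0 : ∀ B, 0 ≤ p B := hps.1
  have hp1 : ∑ B, p B = 1 := hps.2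
  set n := Module.finrank ℝ E with hn'
  -- the marginals
  set P : ι → ℝ := fun i => ∑ B : Finset ι, if i ∈ B then p B else 0 with hPdef
  set s : ι → ℝ := fun i => 2 * P i / ‖x i‖ ^ 2 with hsdef
  have hP0 : ∀ i, 0 ≤ P i := by
    intro i
    apply Finset.sum_nonneg
    intro B _
    split_ifs
    · exact hp0 B
    · exact le_rfl
  have hPx : ∀ i, ‖x i‖ = 0 → P i = 0 := by
    intro i hi
    apply Finset.sum_eq_zero
    intro B _
    split_ifs with hiB
    · by_contra hne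
      have h := (vtx_spec x B (hgood B hne).1).1 i hiB
      rw [norm_eq_zero.mp hi, inner_zero_left] at h
      exact zero_ne_one h
    · rfl
  -- generic identity
  have hdouble : ∀ f : ι → ℝ, ∑ B : Finset ι, p B * ∑ i ∈ B, f i = ∑ i, P i * f i := by
    intro f
    have e1 : ∀ B : Finset ι, p B * ∑ i ∈ B, f i = ∑ i, (if i ∈ B then p B else 0) * f i := by
      intro B
      rw [Finset.mul_sum]
      rw [← Finset.sum_filter_add_sum_filter_not Finset.univ (fun i => i ∈ B)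
        (fun i => (if i ∈ B then p B else 0) * f i)]
      have e2 : ∑ i ∈ Finset.univ.filter (fun i => ¬ i ∈ B), (if i ∈ B then p B else 0) * f i
          = 0 := by
        apply Finset.sum_eq_zero
        intro i hi
        rw [Finset.mem_filter] at hi
        rw [if_neg hi.2, zero_mul]
      rw [e2, add_zero]
      have e3 : Finset.univ.filter (fun i => i ∈ B) = B := by
        ext i; simp
      rw [e3]
      apply Finset.sum_congr rfl
      intro i hi
      rw [if_pos hi]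
    calc ∑ B : Finset ι, p B * ∑ i ∈ B, f i
        = ∑ B : Finset ι, ∑ i, (if i ∈ B then p B else 0) * f i :=
          Finset.sum_congr rfl (fun B _ => e1 B)
      _ = ∑ i, ∑ B : Finset ι, (if i ∈ B then p B else 0) * f i := Finset.sum_comm
      _ = ∑ i, P i * f i := by
          apply Finset.sum_congr rfl
          intro i _
          rw [hPdef, Finset.sum_mul]
  have hcompl : ∀ (B : Finset ι) (f : ι → ℝ), ∑ i ∈ Bᶜ, f i = ∑ i, f i - ∑ i ∈ B, f i := by
    intro B f
    rw [← Finset.sum_add_sum_compl B f]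
    ring
  have hdoublec : ∀ f : ι → ℝ, ∑ B : Finset ι, p B * ∑ i ∈ Bᶜ, f i = ∑ i, (1 - P i) * f i := by
    intro f
    have e1 : ∀ B : Finset ι, p B * ∑ i ∈ Bᶜ, f i = p B * ∑ i, f i - p B * ∑ i ∈ B, f i := by
      intro B
      rw [hcompl B f, mul_sub]
    rw [Finset.sum_congr rfl (fun B _ => e1 B), Finset.sum_sub_distrib, ← Finset.sum_mul, hp1,
      one_mul, hdouble f, ← Finset.sum_sub_distrib]
    apply Finset.sum_congr rfl
    intro i _
    ring
  -- sum of marginals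
  have hPsum : ∑ i, P i = (n : ℝ) := by
    have h := hdouble (fun _ => 1)
    have e1 : ∀ B : Finset ι, p B * ∑ i ∈ B, (1 : ℝ) = p B * (n : ℝ) := by
      intro B
      by_cases hB : p B = 0
      · rw [hB]; simp
      · have hc : B.card = n := (hgood B hB).1.2.1
        rw [Finset.sum_const, hc]
        simp
    rw [Finset.sum_congr rfl (fun B _ => e1 B), ← Finset.sum_mul, hp1, one_mul] at h
    rw [h]
    apply Finset.sum_congr rfl
    intro i _
    ring
  -- the quadratic inequality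
  let b := stdOrthonormalBasis ℝ E
  have hpars : ∀ u : E, ∑ k, (inner ℝ u (b k)) ^ 2 = ‖u‖ ^ 2 := by
    intro u
    have h := b.sum_sq_norm_inner_left u
    rw [← h]
    apply Finset.sum_congr rfl
    intro k _
    rw [Real.norm_eq_abs, sq_abs]
  have hineq : ∑ B : Finset ι, p B * (((m : ℝ) - 1) * ‖vtx x B‖ ^ 2
      - ∑ i ∈ Bᶜ, ‖s i • x i + vtx x B‖ ^ 2) ≤ 0 := by
    have h1 : ∀ k, Phi (fun B => vtx x B - 0) (fun B : Finset ι => Bᶜ) m p (b k)
        (fun i => s i * inner ℝ (x i) (b k)) ≤ 0 := fun k => hphi (b k) _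
    have h2 : ∑ k, Phi (fun B => vtx x B - 0) (fun B : Finset ι => Bᶜ) m p (b k)
        (fun i => s i * inner ℝ (x i) (b k)) ≤ 0 := Finset.sum_nonpos (fun k _ => h1 k)
    have h3 : ∑ k, Phi (fun B => vtx x B - 0) (fun B : Finset ι => Bᶜ) m p (b k)
        (fun i => s i * inner ℝ (x i) (b k)) =
        ∑ B : Finset ι, p B * (((m : ℝ) - 1) * ‖vtx x B‖ ^ 2
      - ∑ i ∈ Bᶜ, ‖s i • x i + vtx x B‖ ^ 2) := by
      unfold Phi
      rw [Finset.sum_comm]
      apply Finset.sum_congr rfl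
      intro B _
      rw [← Finset.mul_sum, Finset.sum_sub_distrib, ← Finset.mul_sum, Finset.sum_comm]
      congr 1
      congr 1
      · rw [← hpars (vtx x B)]
        simp only [sub_zero]
      · apply Finset.sum_congr rfl
        intro i _
        rw [← hpars (s i • x i + vtx x B)]
        apply Finset.sum_congr rfl
        intro k _
        simp only [sub_zero]
        rw [inner_add_left, real_inner_smul_left]
    rw [← h3]
    exact h2
  -- lower bound of each term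
  have hterm : ∀ B : Finset ι, p B * (-1 - ∑ i ∈ Bᶜ, (s i ^ 2 * ‖x i‖ ^ 2
      + 2 * (s i * inner ℝ (x i) (vtx x B)))) ≤
      p B * (((m : ℝ) - 1) * ‖vtx x B‖ ^ 2 - ∑ i ∈ Bᶜ, ‖s i • x i + vtx x B‖ ^ 2) := by
    intro B
    by_cases hB : p B = 0
    · rw [hB]; simp
    · apply mul_le_mul_of_nonneg_left _ (hp0 B)
      have hG := (hgood B hB).1
      have hv := vtx_spec x B hG
      have hv1 : ‖vtx x B‖ ≤ 1 := hQ _ hv.2
      have hcB : Bᶜ.card = m := by
        rw [Finset.card_compl, hcard, hG.2.1]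
        omega
      have e1 : ∑ i ∈ Bᶜ, ‖s i • x i + vtx x B‖ ^ 2 =
          ∑ i ∈ Bᶜ, (s i ^ 2 * ‖x i‖ ^ 2 + 2 * (s i * inner ℝ (x i) (vtx x B)))
            + (m : ℝ) * ‖vtx x B‖ ^ 2 := by
        have e2 : ∀ i ∈ Bᶜ, ‖s i • x i + vtx x B‖ ^ 2 =
            (s i ^ 2 * ‖x i‖ ^ 2 + 2 * (s i * inner ℝ (x i) (vtx x B))) + ‖vtx x B‖ ^ 2 := by
          intro i _
          rw [norm_add_sq_real, norm_smul, real_inner_smul_left, mul_pow, Real.norm_eq_abs, sq_abs]
        rw [Finset.sum_congr rfl e2, Finset.sum_add_distrib]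
        congr 1
        rw [Finset.sum_const, hcB, nsmul_eq_mul]
      rw [e1]
      have h5 : ‖vtx x B‖ ^ 2 ≤ 1 := by
        have h6 : 0 ≤ ‖vtx x B‖ := norm_nonneg _
        nlinarith
      nlinarith
  have hsum1 : ∑ B : Finset ι, p B * (-1 - ∑ i ∈ Bᶜ, (s i ^ 2 * ‖x i‖ ^ 2
      + 2 * (s i * inner ℝ (x i) (vtx x B)))) ≤ 0 :=
    le_trans (Finset.sum_le_sum (fun B _ => hterm B)) hineq
  -- evaluate
  have hinner : ∑ B : Finset ι, p B * ∑ i ∈ Bᶜ, (s i * inner ℝ (x i) (vtx x B)) =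
      - ∑ i, P i * s i := by
    have e1 : ∀ B : Finset ι, p B * ∑ i ∈ Bᶜ, (s i * inner ℝ (x i) (vtx x B)) =
        p B * ∑ i, (s i * inner ℝ (x i) (vtx x B)) - p B * ∑ i ∈ B, s i := by
      intro B
      by_cases hB : p B = 0
      · rw [hB]; simp
      · have hv := vtx_spec x B (hgood B hB).1
        rw [hcompl, mul_sub]
        congr 2
        apply Finset.sum_congr rfl
        intro i hi
        rw [hv.1 i hi, mul_one]
    rw [Finset.sum_congr rfl (fun B _ => e1 B), Finset.sum_sub_distrib, hdouble s]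
    have e2 : ∑ B : Finset ι, p B * ∑ i, (s i * inner ℝ (x i) (vtx x B)) = 0 := by
      have e3 : ∀ B : Finset ι, p B * ∑ i, (s i * inner ℝ (x i) (vtx x B)) =
          ∑ i, s i * inner ℝ (x i) (p B • vtx x B) := by
        intro B
        rw [Finset.mul_sum]
        apply Finset.sum_congr rfl
        intro i _
        rw [real_inner_smul_right]
        ring
      rw [Finset.sum_congr rfl (fun B _ => e3 B), Finset.sum_comm]
      apply Finset.sum_eq_zero
      intro i _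
      rw [← Finset.mul_sum, ← inner_sum, hmean, inner_zero_right, mul_zero]
    rw [e2, zero_sub]
  have hmain : -1 - (∑ i, (1 - P i) * (s i ^ 2 * ‖x i‖ ^ 2) - 2 * ∑ i, P i * s i) ≤ 0 := by
    have e1 : ∑ B : Finset ι, p B * (-1 - ∑ i ∈ Bᶜ, (s i ^ 2 * ‖x i‖ ^ 2
      + 2 * (s i * inner ℝ (x i) (vtx x B)))) =
      -1 - (∑ i, (1 - P i) * (s i ^ 2 * ‖x i‖ ^ 2) - 2 * ∑ i, P i * s i) := by
      have e2 : ∀ B : Finset ι, p B * (-1 - ∑ i ∈ Bᶜ, (s i ^ 2 * ‖x i‖ ^ 2
          + 2 * (s i * inner ℝ (x i) (vtx x B)))) =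
          - p B - (p B * ∑ i ∈ Bᶜ, (s i ^ 2 * ‖x i‖ ^ 2)
            + 2 * (p B * ∑ i ∈ Bᶜ, (s i * inner ℝ (x i) (vtx x B)))) := by
        intro B
        rw [Finset.sum_add_distrib, ← Finset.mul_sum]
        ring
      rw [Finset.sum_congr rfl (fun B _ => e2 B), Finset.sum_sub_distrib, Finset.sum_neg_distrib,
        hp1, Finset.sum_add_distrib, ← Finset.mul_sum, hinner, hdoublec]
      ring
    rw [e1] at hsum1
    exact hsum1
  have hcube : ∑ i, 4 * P i ^ 3 / ‖x i‖ ^ 2 ≤ 1 := by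
    have e1 : ∑ i, 4 * P i ^ 3 / ‖x i‖ ^ 2 =
        2 * ∑ i, P i * s i - ∑ i, (1 - P i) * (s i ^ 2 * ‖x i‖ ^ 2) := by
      rw [Finset.mul_sum, ← Finset.sum_sub_distrib]
      apply Finset.sum_congr rfl
      intro i _
      rw [elem2 ‖x i‖ (P i) (s i) rfl (hPx i)]
      ring
    rw [e1]
    linarith
  -- final
  set r : ℝ := Real.sqrt n with hr
  have hr0 : 0 ≤ r := Real.sqrt_nonneg _
  have hr2 : r ^ 2 = n := Real.sq_sqrt (Nat.cast_nonneg _)
  have hpow : (n : ℝ) ^ ((3 : ℝ) / 2) = r ^ 3 := by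
    rw [hr, Real.sqrt_eq_rpow, ← Real.rpow_natCast, ← Real.rpow_mul (Nat.cast_nonneg _)]
    norm_num
  have hfin : ∑ i, 3 * r * P i ≤ ∑ i, (‖x i‖ + r ^ 3 * (4 * P i ^ 3 / ‖x i‖ ^ 2)) := by
    apply Finset.sum_le_sum
    intro i _
    exact elem ‖x i‖ (P i) r (norm_nonneg _) hr0 (hP0 i) (hPx i)
  rw [← Finset.mul_sum, hPsum, Finset.sum_add_distrib, ← Finset.mul_sum] at hfin
  have hr3 : r ^ 3 * ∑ i, 4 * P i ^ 3 / ‖x i‖ ^ 2 ≤ r ^ 3 * 1 :=
    mul_le_mul_of_nonneg_left hcube (by positivity)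
  rw [hpow]
  have : 3 * r * (n : ℝ) = 3 * r ^ 3 := by
    rw [← hr2]; ring
  linarith

end Pool.Agent.H395VI.F1
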