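import Pool.Agent.H395R5.VI.Defs

set_option autoImplicit false

/-! # F2: polarity -/

namespace Pool.Agent.H395VI.F2

open Pool.Agent.H395VI

theorem main : PolarStmt := by
  intro E ι _ _ _ x hball z hz
  by_cases h0 : z = 0
  · rw [h0, norm_zero]
    exact zero_le_one
  have hn : 0 < ‖z‖ := norm_pos_iff.2 h0
  set u : E := (‖z‖)⁻¹ • z with hu
  have hu1 : u ∈ Metric.closedBall (0 : E) 1 := by
    rw [mem_closedBall_zero_iff, hu, norm_smul, norm_inv, norm_norm, inv_mul_cancel₀ hn.ne']
  have h1 := hball hu1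
  have hconv : Convex ℝ {y : E | inner ℝ z y ≤ (1 : ℝ)} := by
    have : IsLinearMap ℝ (fun y : E => (inner ℝ z y : ℝ)) :=
      { map_add := fun a b => inner_add_right z a b
        map_smul := fun c a => by rw [inner_smul_right, smul_eq_mul] }
    exact convex_halfSpace_le this 1
  have hsub : Set.range x ⊆ {y : E | inner ℝ z y ≤ (1 : ℝ)} := by
    rintro y ⟨i, rfl⟩
    have := hz i
    rw [real_inner_comm] at this
    exact this
  have h2 : inner ℝ z u ≤ (1 : ℝ) := convexHull_min hsub hconv h1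
  rw [hu, inner_smul_right, real_inner_self_eq_norm_sq] at h2
  have h3 : ‖z‖⁻¹ * ‖z‖ ^ 2 = ‖z‖ := by field_simp
  rw [h3] at h2
  exact h2

end Pool.Agent.H395VI.F2
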