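import Pool.Agent.H395R5.VI.Defs

set_option autoImplicit false

namespace Pool.Agent.H395VI.G1

open scoped BigOperators

/-- G1 (base case): the point mass at `tau`. -/
theorem main : BaseStmt := by
  intro E ι _ _ _ _ _ x m tau y hli hcard hQ hy
  have hgood : Good x tau := ⟨hli, hcard, y, hy, hQ⟩
  have hspan : Submodule.span ℝ (Set.range (fun i : tau => x i)) = ⊤ := by
    apply LinearIndependent.span_eq_top_of_card_eq_finrank' hli
    simpa using hcard
  have hvtx : vtx x tau = y := by
    unfold vtx
    rw [dif_pos hgood]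
    have hv1 := hgood.2.2.choose_spec.1
    generalize hgood.2.2.choose = v at hv1 ⊢
    have h0 : ∀ z ∈ Submodule.span ℝ (Set.range (fun i : tau => x i)),
        inner ℝ z (v - y) = (0 : ℝ) := by
      intro z hz
      induction hz using Submodule.span_induction with
      | mem z hz =>
        obtain ⟨i, rfl⟩ := hz
        rw [inner_sub_right, hv1 i i.2, hy i i.2, sub_self]
      | zero => simp
      | add a b _ _ ha hb => rw [inner_add_left, ha, hb, add_zero]
      | smul c a _ ha => rw [inner_smul_left, ha]; simp
    have h1 := h0 (v - y) (by rw [hspan]; trivial)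
    rw [inner_self_eq_zero] at h1
    exact sub_eq_zero.1 h1
  refine ⟨Pi.single tau 1, ?_, ?_, ?_, ?_⟩
  · exact single_mem_stdSimplex ℝ tau
  · intro B hB
    have hBt : B = tau := by
      by_contra h
      exact hB (Pi.single_eq_of_ne h 1)
    subst hBt
    exact ⟨hgood, Finset.Subset.refl _⟩
  · rw [Finset.sum_eq_single tau]
    · simp [hvtx]
    · intro b _ hb
      rw [Pi.single_eq_of_ne hb, zero_smul]
    · simp
  · intro e a
    unfold Phi
    rw [Finset.sum_eq_single tau]
    · have h2 : 0 ≤ ∑ i ∈ tauᶜ, (a i + inner ℝ (vtx x tau - y) e) ^ 2 :=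
        Finset.sum_nonneg (fun i _ => sq_nonneg _)
      have h3 : inner ℝ (vtx x tau - y) e = (0 : ℝ) := by
        rw [hvtx, sub_self, inner_zero_left]
      simp only [Pi.single_eq_same, one_mul]
      rw [h3] at h2 ⊢
      simp only [ne_eq, OfNat.ofNat_ne_zero, not_false_eq_true, zero_pow, mul_zero, zero_sub]
      linarith
    · intro b _ hb
      rw [Pi.single_eq_of_ne hb, zero_mul]
    · simp

end Pool.Agent.H395VI.G1
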