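import Pool.Agent.H395R5.VI.Defs

set_option autoImplicit false

/-! # G2: moving along a ray (helper955) -/

namespace Pool.Agent.H395VI.G2

open Pool.Agent.H395VI

theorem main : RayStmt := by
  intro E ι _ _ _ _ x y k R hR hy hk h0
  classical
  set A : Finset ι := Finset.univ.filter (fun i => 0 < (inner ℝ (x i) k : ℝ)) with hA
  have hlin : ∀ (i : ι) (s : ℝ), (inner ℝ (x i) (y + s • k) : ℝ) =
      inner ℝ (x i) y + s * inner ℝ (x i) k := by
    intro i s
    rw [inner_add_right, inner_smul_right]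
  have hAm : ∀ i, i ∈ A ↔ 0 < (inner ℝ (x i) k : ℝ) := by
    intro i
    rw [hA, Finset.mem_filter]
    exact ⟨fun h => h.2, fun h => ⟨Finset.mem_univ _, h⟩⟩
  have hlt : ∀ i ∈ A, (inner ℝ (x i) y : ℝ) < 1 := by
    intro i hi
    rw [hA, Finset.mem_filter] at hi
    refine lt_of_le_of_ne (hy i) fun h => ?_
    have := h0 i h
    linarith [hi.2]
  have hne : A.Nonempty := by
    by_contra hcon
    rw [Finset.not_nonempty_iff_eq_empty] at hcon
    have h1 : ∀ s : ℝ, 0 ≤ s → ‖y + s • k‖ ≤ R := by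
      intro s hs
      refine hR _ fun i => ?_
      rw [hlin]
      have h2 : (inner ℝ (x i) k : ℝ) ≤ 0 := by
        by_contra h3
        have : i ∈ A := by
          rw [hA, Finset.mem_filter]
          exact ⟨Finset.mem_univ _, not_le.1 h3⟩
        rw [hcon] at this
        exact absurd this (Finset.notMem_empty _)
      have h3 := hy i
      have h4 : s * (inner ℝ (x i) k : ℝ) ≤ 0 := mul_nonpos_of_nonneg_of_nonpos hs h2
      linarith
    have hk' : 0 < ‖k‖ := norm_pos_iff.2 hk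
    have hR0 : 0 ≤ R := (norm_nonneg _).trans (h1 0 le_rfl)
    have h2 := h1 ((R + ‖y‖ + 1) / ‖k‖) (by positivity)
    have h3 : ‖((R + ‖y‖ + 1) / ‖k‖) • k‖ = R + ‖y‖ + 1 := by
      rw [norm_smul, Real.norm_of_nonneg (by positivity), div_mul_cancel₀ _ hk'.ne']
    have h4 : ‖((R + ‖y‖ + 1) / ‖k‖) • k‖ ≤ ‖y + ((R + ‖y‖ + 1) / ‖k‖) • k‖ + ‖y‖ := by
      have h5 := norm_sub_le (y + ((R + ‖y‖ + 1) / ‖k‖) • k) y
      rwa [add_sub_cancel_left] at h5
    linarith
  obtain ⟨j, hj, hmin⟩ := A.exists_min_image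
    (fun i => (1 - (inner ℝ (x i) y : ℝ)) / inner ℝ (x i) k) hne
  set s : ℝ := (1 - (inner ℝ (x j) y : ℝ)) / inner ℝ (x j) k with hs
  have hjk : 0 < (inner ℝ (x j) k : ℝ) := (hAm j).1 hj
  have hs0 : 0 < s := div_pos (by linarith [hlt j hj]) hjk
  refine ⟨s, hs0, fun i => ?_, fun i hi => ?_, j, (hlt j hj).ne, ?_⟩
  · rw [hlin]
    by_cases hi : i ∈ A
    · have hik : 0 < (inner ℝ (x i) k : ℝ) := (hAm i).1 hi
      have h1 := hmin i hi
      rw [le_div_iff₀ hik] at h1
      linarith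
    · have hik : (inner ℝ (x i) k : ℝ) ≤ 0 := by
        by_contra h3
        exact hi ((hAm i).2 (not_le.1 h3))
      have h3 := hy i
      have h4 : s * (inner ℝ (x i) k : ℝ) ≤ 0 := mul_nonpos_of_nonneg_of_nonpos hs0.le hik
      linarith
  · rw [hlin, h0 i hi, hi]
    ring
  · rw [hlin, hs, div_mul_cancel₀ _ hjk.ne']
    ring

end Pool.Agent.H395VI.G2
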