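import Pool.Agent.H395R5.VI.Defs

set_option autoImplicit false

namespace Pool.Agent.H395VI.G3

open scoped BigOperators

theorem mem_span_of_not {E ι : Type} [NormedAddCommGroup E] [InnerProductSpace ℝ E]
    [DecidableEq ι] (x : ι → E) (tau : Finset ι) (i : ι) (hi : i ∉ tau)
    (h : LinearIndependent ℝ (fun j : tau => x j))
    (hn : ¬ LinearIndependent ℝ (fun j : (insert i tau : Finset ι) => x j)) :
    x i ∈ Submodule.span ℝ (x '' (tau : Set ι)) := by
  by_contra hc
  apply hn
  have h1 : LinearIndepOn ℝ x ((insert i tau : Finset ι) : Set ι) := by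
    rw [Finset.coe_insert, linearIndepOn_insert (by exact_mod_cast hi)]
    exact ⟨h, hc⟩
  exact h1

theorem inner_eq_zero_of_span {E ι : Type} [NormedAddCommGroup E] [InnerProductSpace ℝ E]
    (x : ι → E) (tau : Finset ι) (k : E) (hk : ∀ i ∈ tau, inner ℝ (x i) k = 0) (z : E)
    (hz : z ∈ Submodule.span ℝ (x '' (tau : Set ι))) : inner ℝ z k = 0 := by
  induction hz using Submodule.span_induction with
  | mem z hz =>
    obtain ⟨i, hi, rfl⟩ := hz
    exact hk i (by exact_mod_cast hi)
  | zero => exact inner_zero_left _
  | add u v _ _ hu hv => rw [inner_add_left, hu, hv, add_zero]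
  | smul c u _ hu => rw [inner_smul_left, hu, mul_zero]

theorem Phi_congr {V : Type} [NormedAddCommGroup V] [InnerProductSpace ℝ V]
    {Ω ι : Type} [Fintype Ω] (w w' : Ω → V) (J : Ω → Finset ι) (m : ℕ)
    (p : Ω → ℝ) (e : V) (a : ι → ℝ) (h : ∀ ω, inner ℝ (w ω) e = inner ℝ (w' ω) e) :
    Phi w J m p e a = Phi w' J m p e a := by
  unfold Phi
  simp only [h]

theorem Phi_comb {V : Type} [NormedAddCommGroup V] [InnerProductSpace ℝ V]
    {Ω ι : Type} [Fintype Ω] (w : Ω → V) (J : Ω → Finset ι) (m : ℕ)
    (p q : Ω → ℝ) (α β : ℝ) (e : V) (a : ι → ℝ) :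
    Phi w J m (fun ω => α * p ω + β * q ω) e a =
      α * Phi w J m p e a + β * Phi w J m q e a := by
  unfold Phi
  rw [Finset.mul_sum, Finset.mul_sum, ← Finset.sum_add_distrib]
  exact Finset.sum_congr rfl fun ω _ => by ring

theorem card_lt {E ι : Type} [NormedAddCommGroup E] [InnerProductSpace ℝ E]
    [Fintype ι] [DecidableEq ι] (x : ι → E) (y y' : E)
    (h1 : ∀ i, inner ℝ (x i) y = 1 → inner ℝ (x i) y' = 1)
    (h2 : ∃ i, inner ℝ (x i) y ≠ 1 ∧ inner ℝ (x i) y' = 1) :
    (Finset.univ.filter (fun i => inner ℝ (x i) y' ≠ 1)).card <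
      (Finset.univ.filter (fun i => inner ℝ (x i) y ≠ 1)).card := by
  apply Finset.card_lt_card
  rw [Finset.ssubset_iff_of_subset]
  · obtain ⟨i, hi, hi'⟩ := h2
    exact ⟨i, by simp [hi], by simp [hi']⟩
  · intro i hi
    rw [Finset.mem_filter] at hi ⊢
    exact ⟨hi.1, fun h => hi.2 (h1 i h)⟩

theorem main : RayStmt → SplitStmt := by
  intro hRay E ι _ _ _ _ _ x m tau R W hR hind hstep hk
  obtain ⟨k, hk0, hktau, hkW⟩ := hk
  have key : ∀ (n : ℕ) (y : E), (Finset.univ.filter (fun i => inner ℝ (x i) y ≠ 1)).card < n →
      InQ x y → (∀ i ∈ tau, inner ℝ (x i) y = 1) → ClaimOn x m tau y W := by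
    intro n
    induction n with
    | zero => intro y h; exact absurd h (Nat.not_lt_zero _)
    | succ n ih =>
      intro y hn hy hytau
      by_cases hc : ∃ i, i ∉ tau ∧ inner ℝ (x i) y = 1 ∧
          LinearIndependent ℝ (fun j : (insert i tau : Finset ι) => x j)
      · obtain ⟨i, hi, hiy, hli⟩ := hc
        obtain ⟨p, hp1, hp2, hp3, hp4⟩ := hstep i hi hli y hy (by
          intro j hj
          rcases Finset.mem_insert.1 hj with rfl | hj
          · exact hiy
          · exact hytau j hj)
        exact ⟨p, hp1, fun B hB => ⟨(hp2 B hB).1,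
          (Finset.subset_insert i tau).trans (hp2 B hB).2⟩, hp3, fun e _ a => hp4 e a⟩
      · have hact : ∀ i, inner ℝ (x i) y = 1 → inner ℝ (x i) k = 0 := by
          intro i hi
          by_cases hit : i ∈ tau
          · exact hktau i hit
          · have hn' : ¬ LinearIndependent ℝ (fun j : (insert i tau : Finset ι) => x j) :=
              fun h => hc ⟨i, hit, hi, h⟩
            exact inner_eq_zero_of_span x tau k hktau _ (mem_span_of_not x tau i hit hind hn')
        have hact' : ∀ i, inner ℝ (x i) y = 1 → inner ℝ (x i) (-k) = 0 := by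
          intro i hi
          rw [inner_neg_right, hact i hi, neg_zero]
        obtain ⟨s, hs, hQ1, hA1, hB1⟩ := hRay E ι x y k R hR hy hk0 hact
        obtain ⟨s', hs', hQ2, hA2, hB2⟩ := hRay E ι x y (-k) R hR hy (neg_ne_zero.2 hk0) hact'
        obtain ⟨p, hp1, hp2, hp3, hp4⟩ := ih (y + s • k)
          (by have := card_lt x y (y + s • k) hA1 hB1; omega) hQ1
          (fun i hi => hA1 i (hytau i hi))
        obtain ⟨q, hq1, hq2, hq3, hq4⟩ := ih (y + s' • (-k))
          (by have := card_lt x y (y + s' • (-k)) hA2 hB2; omega) hQ2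
          (fun i hi => hA2 i (hytau i hi))
        have hss : 0 < s + s' := by positivity
        set α : ℝ := s' / (s + s') with hα
        set β : ℝ := s / (s + s') with hβ
        have hαp : 0 ≤ α := by positivity
        have hβp : 0 ≤ β := by positivity
        have hαβ : α + β = 1 := by
          rw [hα, hβ]
          field_simp
          ring
        have hbal : α * s = β * s' := by
          rw [hα, hβ]
          field_simp
        refine ⟨fun B => α * p B + β * q B, ?_, ?_, ?_, ?_⟩
        · refine ⟨fun B => ?_, ?_⟩
          · have h1 := hp1.1 B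
            have h2 := hq1.1 B
            positivity
          · rw [Finset.sum_add_distrib, ← Finset.mul_sum, ← Finset.mul_sum, hp1.2, hq1.2,
              mul_one, mul_one, hαβ]
        · intro B hB
          by_cases h : p B = 0
          · by_cases h' : q B = 0
            · exact absurd (show α * p B + β * q B = 0 by
                rw [h, h', mul_zero, mul_zero, add_zero]) hB
            · exact hq2 B h'
          · exact hp2 B h
        · simp only [add_smul, mul_smul]
          rw [Finset.sum_add_distrib, ← Finset.smul_sum, ← Finset.smul_sum, hp3, hq3,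
            smul_add, smul_add, smul_neg, smul_neg, smul_smul, smul_smul, ← hbal]
          calc α • y + (α * s) • k + (β • y + -((α * s) • k)) = (α + β) • y := by
                rw [add_smul]; abel
            _ = y := by rw [hαβ, one_smul]
        · intro e he a
          rw [Phi_comb]
          have hke : inner ℝ k e = 0 := hkW e he
          have e1 := Phi_congr (fun B => vtx x B - y) (fun B => vtx x B - (y + s • k))
            (fun B : Finset ι => Bᶜ) m p e a (fun B => by
              rw [inner_sub_left, inner_sub_left, inner_add_left, inner_smul_left, hke, mul_zero,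
                add_zero])
          have e2 := Phi_congr (fun B => vtx x B - y) (fun B => vtx x B - (y + s' • (-k)))
            (fun B : Finset ι => Bᶜ) m q e a (fun B => by
              rw [inner_sub_left, inner_sub_left, inner_add_left, inner_smul_left, inner_neg_left,
                hke, neg_zero, mul_zero, add_zero])
          rw [e1, e2]
          have h1 := mul_nonneg hαp (neg_nonneg.2 (hp4 e he a))
          have h2 := mul_nonneg hβp (neg_nonneg.2 (hq4 e he a))
          linarith
  intro y hy hytau
  exact key _ y (Nat.lt_succ_self _) hy hytau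

end Pool.Agent.H395VI.G3
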