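import Pool.Agent.H395R5.VI.Defs

set_option autoImplicit false

namespace Pool.Agent.H395VI.G4

open Pool.Agent.H395VI

theorem vtx_spec {E ι : Type} [NormedAddCommGroup E] [InnerProductSpace ℝ E] (x : ι → E)
    (B : Finset ι) (h : Good x B) : (∀ i ∈ B, inner ℝ (x i) (vtx x B) = 1) ∧ InQ x (vtx x B) := by
  unfold vtx
  rw [dif_pos h]
  exact h.2.2.choose_spec

/-- the face directions -/
noncomputable def VV {E ι : Type} [NormedAddCommGroup E] [InnerProductSpace ℝ E] (x : ι → E) (tau : Finset ι) :
    Submodule ℝ E := (Submodule.span ℝ (x '' tau))ᗮ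

theorem mem_VV {E ι : Type} [NormedAddCommGroup E] [InnerProductSpace ℝ E] (x : ι → E)
    (tau : Finset ι) (e : E) : e ∈ VV x tau ↔ ∀ i ∈ tau, inner ℝ (x i) e = 0 := by
  unfold VV
  constructor
  · intro h i hi
    exact h (x i) (Submodule.subset_span ⟨i, hi, rfl⟩)
  · intro h u hu
    induction hu using Submodule.span_induction with
    | mem u hu =>
      obtain ⟨i, hi, rfl⟩ := hu
      exact h i hi
    | zero => simp
    | add a b _ _ ha hb => rw [inner_add_left, ha, hb, add_zero]
    | smul c a _ ha => rw [inner_smul_left, ha, mul_zero]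

theorem finrank_VV {E ι : Type} [NormedAddCommGroup E] [InnerProductSpace ℝ E]
    [FiniteDimensional ℝ E] (x : ι → E) (tau : Finset ι)
    (h : LinearIndependent ℝ (fun i : tau => x i)) :
    tau.card + Module.finrank ℝ (VV x tau) = Module.finrank ℝ E := by
  have h1 := Submodule.finrank_add_finrank_orthogonal (Submodule.span ℝ (x '' tau))
  have h2 : Module.finrank ℝ (Submodule.span ℝ (x '' tau)) = tau.card := by
    have h3 := finrank_span_eq_card h
    have h4 : Set.range (fun i : tau => x i) = x '' tau := by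
      ext u
      constructor
      · rintro ⟨i, rfl⟩
        exact ⟨i, i.2, rfl⟩
      · rintro ⟨i, hi, rfl⟩
        exact ⟨⟨i, hi⟩, rfl⟩
    rw [h4] at h3
    rw [h3, Fintype.card_coe]
  rw [h2] at h1
  exact h1

theorem main : CoreStmt → SplitStmt → StepStmt := by
  intro hCore hSplit E ι _ _ _ _ _ x m tau R hcard hQ hli hlt hins y hyQ hy1
  set V := VV x tau with hV
  have hfin : tau.card + Module.finrank ℝ V = Module.finrank ℝ E := finrank_VV x tau hli
  set w : Finset ι → V := fun B => V.orthogonalProjectionOnto (vtx x B - y) with hw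
  set M : Set (Finset ι → ℝ) := {p | p ∈ stdSimplex ℝ (Finset ι) ∧
    (∀ B, ¬ (Good x B ∧ tau ⊆ B) → p B = 0) ∧ ∑ B, p B • vtx x B = y} with hM
  have hMc : IsCompact M := by
    have : M = stdSimplex ℝ (Finset ι) ∩ ((⋂ B, {p | ¬ (Good x B ∧ tau ⊆ B) → p B = 0}) ∩
        {p | ∑ B, p B • vtx x B = y}) := by
      ext p
      simp only [hM, Set.mem_ofPred_eq, Set.mem_inter_iff, Set.mem_iInter]
    rw [this]
    apply (isCompact_stdSimplex ℝ (Finset ι)).inter_right
    apply IsClosed.inter
    · apply isClosed_iInter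
      intro B
      by_cases hB : Good x B ∧ tau ⊆ B
      · have : {p : Finset ι → ℝ | ¬ (Good x B ∧ tau ⊆ B) → p B = 0} = Set.univ := by
          ext p; simp [hB]
        rw [this]
        exact isClosed_univ
      · have : {p : Finset ι → ℝ | ¬ (Good x B ∧ tau ⊆ B) → p B = 0} = {p | p B = 0} := by
          ext p
          simp only [Set.mem_ofPred_eq]
          constructor
          · intro h; exact h hB
          · intro h _; exact h
        rw [this]
        exact isClosed_eq (continuous_apply B) continuous_const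
    · exact isClosed_eq (continuous_finsetSum _ fun B _ => (continuous_apply B).smul
        continuous_const) continuous_const
  have hMconv : Convex ℝ M := by
    intro p hp q hq s t hs ht hst
    refine ⟨convex_stdSimplex ℝ _ hp.1 hq.1 hs ht hst, ?_, ?_⟩
    · intro B hB
      simp only [Pi.add_apply, Pi.smul_apply, hp.2.1 B hB, hq.2.1 B hB, smul_zero, add_zero]
    · have : ∑ B, (s • p + t • q) B • vtx x B =
          s • ∑ B, p B • vtx x B + t • ∑ B, q B • vtx x B := by
        rw [Finset.smul_sum, Finset.smul_sum, ← Finset.sum_add_distrib]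
        apply Finset.sum_congr rfl
        intro B _
        simp only [Pi.add_apply, Pi.smul_apply, smul_eq_mul, add_smul, mul_smul]
      rw [this, hp.2.2, hq.2.2, ← add_smul, hst, one_smul]
  have hMgood : ∀ p ∈ M, ∀ B, p B ≠ 0 → Good x B ∧ tau ⊆ B := by
    intro p hp B hB
    by_contra h
    exact hB (hp.2.1 B h)
  have hMsum : ∀ p ∈ M, ∑ B, p B • w B = 0 := by
    intro p hp
    have e1 : ∑ B, p B • w B = V.orthogonalProjectionOnto (∑ B, p B • (vtx x B - y)) := by
      rw [map_sum]
      apply Finset.sum_congr rfl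
      intro B _
      rw [map_smul]
    have e2 : ∑ B, p B • (vtx x B - y) = 0 := by
      simp only [smul_sub, Finset.sum_sub_distrib, ← Finset.sum_smul]
      rw [hp.2.2, hp.1.2, one_smul, sub_self]
    rw [e1, e2, map_zero]
  have hMcard : ∀ p ∈ M, ∀ B, p B ≠ 0 → (Bᶜ : Finset ι).card = m ∧ (Bᶜ : Finset ι) ⊆ tauᶜ := by
    intro p hp B hB
    obtain ⟨hg, hsub⟩ := hMgood p hp B hB
    refine ⟨?_, Finset.compl_subset_compl.mpr hsub⟩
    rw [Finset.card_compl, hcard, hg.2.1]
    omega
  have hIcard : (tauᶜ : Finset ι).card = m + Module.finrank ℝ V := by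
    rw [Finset.card_compl, hcard]
    omega
  have hinner : ∀ (u : E) (e : V), inner ℝ (V.orthogonalProjectionOnto u) e = inner ℝ u (e : E) := by
    intro u e
    exact Submodule.inner_orthogonalProjectionOnto_eq_of_mem_right e u
  have hvV : ∀ p ∈ M, ∀ B, p B ≠ 0 → vtx x B - y ∈ V := by
    intro p hp B hB
    obtain ⟨hg, hsub⟩ := hMgood p hp B hB
    rw [hV, mem_VV]
    intro i hi
    rw [inner_sub_right, (vtx_spec x B hg).1 i (hsub hi), hy1 i hi, sub_self]
  obtain ⟨p, hpM, hp⟩ := hCore V (Finset ι) ι w (fun B => Bᶜ) tauᶜ m M hMc hMconv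
    (fun p hp => hp.1) hMsum hMcard hIcard (by omega) (by
      intro W hWt
      have hWo : Wᗮ ≠ ⊥ := by
        intro h
        exact hWt (Submodule.orthogonal_eq_bot_iff.mp h)
      obtain ⟨k, hk, hk0⟩ := Submodule.exists_mem_ne_zero_of_ne_bot hWo
      obtain ⟨p, hp1, hp2, hp3, hp4⟩ := hSplit E ι x m tau R (W.map V.subtype) hQ hli hins
        ⟨(k : E), fun h => hk0 (Subtype.ext h), (mem_VV x tau _).mp k.2, by
          rintro e ⟨e', he', rfl⟩
          have := (Submodule.mem_orthogonal' W k).mp hk e' he'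
          exact this⟩ y hyQ hy1
      refine ⟨p, ⟨hp1, fun B hB => ?_, hp3⟩, ?_⟩
      · by_contra h
        exact hB (hp2 B h)
      · intro e he a
        have h5 := hp4 (e : E) (Submodule.mem_map_of_mem he) a
        refine le_trans (le_of_eq ?_) h5
        unfold Phi
        apply Finset.sum_congr rfl
        intro B _
        rw [hw]
        simp only
        rw [hinner])
  refine ⟨p, hpM.1, hMgood p hpM, hpM.2.2, ?_⟩
  intro e a
  have h5 := hp (V.orthogonalProjectionOnto e) a
  refine le_trans (le_of_eq ?_) h5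
  unfold Phi
  apply Finset.sum_congr rfl
  intro B _
  by_cases hB : p B = 0
  · rw [hB, zero_mul, zero_mul]
  · have h6 : inner ℝ (w B) (V.orthogonalProjectionOnto e) = inner ℝ (vtx x B - y) e := by
      rw [hw]
      simp only
      rw [hinner]
      rw [real_inner_comm]
      rw [← Submodule.coe_mk (vtx x B - y) (hvV p hpM B hB)]
      rw [← Submodule.coe_inner, hinner, real_inner_comm]
    rw [h6]

end Pool.Agent.H395VI.G4
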