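import Pool.Agent.H395R5.VI.Defs

set_option autoImplicit false

/-! # T1: the trace inequality -/

namespace Pool.Agent.H395VI.T1

open scoped BigOperators

section

variable {V : Type} [NormedAddCommGroup V] [InnerProductSpace ℝ V]
  {Ω ι : Type} [Fintype Ω] [DecidableEq ι]
  (w : Ω → V) (J : Ω → Finset ι) (p : Ω → ℝ)

/-- indicator of `i ∈ J ω` -/
def chi (i : ι) (ω : Ω) : ℝ := if i ∈ J ω then 1 else 0

/-- mean of the indicator -/
def bb (i : ι) : ℝ := ∑ ω, p ω * chi J i ω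

/-- mean of the indicator times the form -/
noncomputable def zz (i : ι) : V →ₗ[ℝ] ℝ where
  toFun e := ∑ ω, p ω * chi J i ω * inner ℝ (w ω) e
  map_add' x y := by
    simp only [inner_add_right, mul_add, Finset.sum_add_distrib]
  map_smul' c x := by
    simp only [inner_smul_right, RingHom.id_apply, smul_eq_mul, Finset.mul_sum]
    exact Finset.sum_congr rfl fun ω _ => by ring

lemma zz_apply (i : ι) (e : V) : zz w J p i e = ∑ ω, p ω * chi J i ω * inner ℝ (w ω) e := rfl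

/-- covariance form -/
noncomputable def CC : LinearMap.BilinForm ℝ V :=
  LinearMap.mk₂ ℝ (fun e f => ∑ ω, p ω * (inner ℝ (w ω) e * inner ℝ (w ω) f))
    (fun x y z => by
      simp only [inner_add_right, add_mul, mul_add, Finset.sum_add_distrib])
    (fun c x y => by
      simp only [inner_smul_right, smul_eq_mul, Finset.mul_sum]
      exact Finset.sum_congr rfl fun ω _ => by ring)
    (fun x y z => by
      simp only [inner_add_right, mul_add, Finset.sum_add_distrib])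
    (fun c x y => by
      simp only [inner_smul_right, smul_eq_mul, Finset.mul_sum]
      exact Finset.sum_congr rfl fun ω _ => by ring)

lemma CC_apply (e f : V) :
    CC w p e f = ∑ ω, p ω * (inner ℝ (w ω) e * inner ℝ (w ω) f) := rfl

lemma CC_symm : LinearMap.IsSymm (CC w p) := by
  constructor
  intro x y
  simp only [RingHom.id_apply, CC_apply]
  exact Finset.sum_congr rfl fun ω _ => by ring

lemma chi_sq (i : ι) (ω : Ω) : chi J i ω ^ 2 = chi J i ω := by
  unfold chi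
  split_ifs <;> norm_num

lemma chi_nonneg (i : ι) (ω : Ω) : 0 ≤ chi J i ω := by
  unfold chi
  split_ifs <;> norm_num

variable {w J p}

lemma bb_nonneg (hp : ∀ ω, 0 ≤ p ω) (i : ι) : 0 ≤ bb J p i :=
  Finset.sum_nonneg fun ω _ => mul_nonneg (hp ω) (chi_nonneg J i ω)

lemma zz_zero (hp : ∀ ω, 0 ≤ p ω) {i : ι} (h : bb J p i = 0) (e : V) : zz w J p i e = 0 := by
  rw [zz_apply]
  refine Finset.sum_eq_zero fun ω _ => ?_
  have h1 := (Finset.sum_eq_zero_iff_of_nonneg (fun ω _ =>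
    mul_nonneg (hp ω) (chi_nonneg J i ω))).mp h ω (Finset.mem_univ ω)
  rw [h1, zero_mul]

lemma zz_zero' (hp : ∀ ω, 0 ≤ p ω) {e : V} (h : CC w p e e = 0) (i : ι) :
    zz w J p i e = 0 := by
  rw [zz_apply]
  refine Finset.sum_eq_zero fun ω _ => ?_
  have h1 := (Finset.sum_eq_zero_iff_of_nonneg (fun ω _ =>
    mul_nonneg (hp ω) (mul_self_nonneg (inner ℝ (w ω) e)))).mp h ω (Finset.mem_univ ω)
  rcases mul_eq_zero.mp h1 with h2 | h2
  · rw [h2]; ring
  · rw [mul_self_eq_zero.mp h2, mul_zero]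

lemma CC_nonneg (hp : ∀ ω, 0 ≤ p ω) (e : V) : 0 ≤ CC w p e e :=
  Finset.sum_nonneg fun ω _ => mul_nonneg (hp ω) (mul_self_nonneg _)

/-- the variance inequality -/
lemma var_ineq (hp : ∀ ω, 0 ≤ p ω) (hp1 : ∑ ω, p ω = 1) (h0 : ∑ ω, p ω • w ω = 0) (i : ι)
    (u : V) : 0 ≤ bb J p i - bb J p i ^ 2 - 2 * zz w J p i u + CC w p u u := by
  have h1 : ∑ ω, p ω * inner ℝ (w ω) u = 0 := by
    have : inner ℝ (∑ ω, p ω • w ω) u = ∑ ω, p ω * inner ℝ (w ω) u := by
      rw [sum_inner]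
      exact Finset.sum_congr rfl fun ω _ => by rw [real_inner_smul_left]
    rw [← this, h0, inner_zero_left]
  have h2 : 0 ≤ ∑ ω, p ω * (chi J i ω - bb J p i - inner ℝ (w ω) u) ^ 2 :=
    Finset.sum_nonneg fun ω _ => mul_nonneg (hp ω) (sq_nonneg _)
  have h3 : ∑ ω, p ω * (chi J i ω - bb J p i - inner ℝ (w ω) u) ^ 2 =
      ∑ ω, p ω * chi J i ω - 2 * bb J p i * ∑ ω, p ω * chi J i ω + bb J p i ^ 2 * ∑ ω, p ω -
        2 * (∑ ω, p ω * chi J i ω * inner ℝ (w ω) u) +
        2 * bb J p i * (∑ ω, p ω * inner ℝ (w ω) u) +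
        ∑ ω, p ω * (inner ℝ (w ω) u * inner ℝ (w ω) u) := by
    simp only [Finset.mul_sum, ← Finset.sum_add_distrib, ← Finset.sum_sub_distrib]
    refine Finset.sum_congr rfl fun ω _ => ?_
    have h4 := chi_sq J i ω
    calc p ω * (chi J i ω - bb J p i - inner ℝ (w ω) u) ^ 2 =
        p ω * (chi J i ω ^ 2) - 2 * bb J p i * (p ω * chi J i ω) + bb J p i ^ 2 * p ω -
          2 * (p ω * chi J i ω * inner ℝ (w ω) u) + 2 * bb J p i * (p ω * inner ℝ (w ω) u) +
          p ω * (inner ℝ (w ω) u * inner ℝ (w ω) u) := by ring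
      _ = _ := by rw [h4]
  rw [h3, h1, hp1, ← zz_apply, ← CC_apply] at h2
  have h5 : ∑ ω, p ω * chi J i ω = bb J p i := rfl
  rw [h5] at h2
  linarith

/-- Bessel's inequality -/
lemma bessel {κ : Type} [Fintype κ] (hp : ∀ ω, 0 ≤ p ω) (hp1 : ∑ ω, p ω = 1)
    (h0 : ∑ ω, p ω • w ω = 0) (v : κ → V) (hv : ∀ k l, k ≠ l → CC w p (v k) (v l) = 0)
    (hpos : ∀ k, 0 < CC w p (v k) (v k)) (i : ι) :
    ∑ k, zz w J p i (v k) ^ 2 / CC w p (v k) (v k) ≤ bb J p i - bb J p i ^ 2 := by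
  classical
  set c : κ → ℝ := fun k => zz w J p i (v k) / CC w p (v k) (v k) with hc
  have h1 := var_ineq (J := J) hp hp1 h0 i (∑ k, c k • v k)
  have h2 : zz w J p i (∑ k, c k • v k) = ∑ k, zz w J p i (v k) ^ 2 / CC w p (v k) (v k) := by
    rw [map_sum]
    refine Finset.sum_congr rfl fun k _ => ?_
    rw [map_smul, smul_eq_mul]
    simp only [hc]
    ring
  have h3 : CC w p (∑ k, c k • v k) (∑ k, c k • v k) =
      ∑ k, zz w J p i (v k) ^ 2 / CC w p (v k) (v k) := by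
    simp only [map_sum, LinearMap.sum_apply, map_smul, LinearMap.smul_apply, smul_eq_mul]
    refine Finset.sum_congr rfl fun k _ => ?_
    rw [Finset.sum_eq_single k]
    · simp only [hc]
      have := (hpos k).ne'
      field_simp
    · intro l _ hl
      rw [hv l k hl]
      ring
    · intro h
      exact absurd (Finset.mem_univ k) h
  rw [h2, h3] at h1
  linarith

end

lemma Phi_eq {V : Type} [NormedAddCommGroup V] [InnerProductSpace ℝ V]
    {Ω ι : Type} [Fintype Ω] [Fintype ι] [DecidableEq ι]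
    (w : Ω → V) (J : Ω → Finset ι) (I : Finset ι) (m : ℕ) (p : Ω → ℝ)
    (hJ : ∀ ω, p ω ≠ 0 → (J ω).card = m ∧ J ω ⊆ I) (e : V) (a : ι → ℝ) :
    Phi w J m p e a = -(CC w p e e) -
      ∑ i ∈ I, (bb J p i * a i ^ 2 + 2 * a i * zz w J p i e) := by
  have h1 : ∑ i ∈ I, (bb J p i * a i ^ 2 + 2 * a i * zz w J p i e) =
      ∑ ω, p ω * ∑ i ∈ I, chi J i ω * (a i ^ 2 + 2 * a i * inner ℝ (w ω) e) := by
    simp only [bb, zz_apply, Finset.mul_sum, Finset.sum_mul, ← Finset.sum_add_distrib]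
    rw [Finset.sum_comm]
    refine Finset.sum_congr rfl fun i _ => ?_
    refine Finset.sum_congr rfl fun ω _ => ?_
    ring
  rw [h1, CC_apply, Phi, ← Finset.sum_neg_distrib, ← Finset.sum_sub_distrib]
  refine Finset.sum_congr rfl fun ω _ => ?_
  by_cases hω : p ω = 0
  · rw [hω]; ring
  obtain ⟨hc, hs⟩ := hJ ω hω
  have h2 : ∑ i ∈ I, chi J i ω * (a i ^ 2 + 2 * a i * inner ℝ (w ω) e) =
      ∑ i ∈ J ω, (a i ^ 2 + 2 * a i * inner ℝ (w ω) e) := by
    rw [← Finset.sum_subset hs]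
    · refine Finset.sum_congr rfl fun i hi => ?_
      rw [chi, if_pos hi, one_mul]
    · intro i _ hi
      rw [chi, if_neg hi, zero_mul]
  have h3 : ∑ i ∈ J ω, (a i + inner ℝ (w ω) e) ^ 2 =
      ∑ i ∈ J ω, (a i ^ 2 + 2 * a i * inner ℝ (w ω) e) + m * inner ℝ (w ω) e ^ 2 := by
    have h4 : ∑ i ∈ J ω, (inner ℝ (w ω) e : ℝ) ^ 2 = m * inner ℝ (w ω) e ^ 2 := by
      rw [Finset.sum_const, hc, nsmul_eq_mul]
    rw [← h4, ← Finset.sum_add_distrib]
    exact Finset.sum_congr rfl fun i _ => by ring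
  rw [h2, h3]
  ring

theorem main : TraceStmt := by
  intro V _ _ _ Ω ι _ _ _ w J I m p lam hp h0 hJ hI hd hlam hall
  classical
  have hp0 : ∀ ω, 0 ≤ p ω := hp.1
  have hp1 : ∑ ω, p ω = 1 := hp.2
  -- the inequality (*)
  have hstar : ∀ e : V, lam * ‖e‖ ^ 2 + CC w p e e ≤ ∑ i ∈ I, zz w J p i e ^ 2 / bb J p i := by
    intro e
    obtain ⟨a, ha⟩ := hall e
    rw [Phi_eq w J I m p hJ] at ha
    have h1 : -∑ i ∈ I, (bb J p i * a i ^ 2 + 2 * a i * zz w J p i e) ≤
        ∑ i ∈ I, zz w J p i e ^ 2 / bb J p i := by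
      rw [← Finset.sum_neg_distrib]
      refine Finset.sum_le_sum fun i _ => ?_
      rcases (bb_nonneg hp0 (J := J) i).eq_or_lt with hb | hb
      · rw [zz_zero hp0 hb.symm, ← hb]
        simp
      · rw [le_div_iff₀ hb]
        nlinarith [sq_nonneg (bb J p i * a i + zz w J p i e)]
    linarith
  have hCpos : ∀ e : V, e ≠ 0 → 0 < CC w p e e := by
    intro e he
    rcases (CC_nonneg hp0 (w := w) e).eq_or_lt with h | h
    · exfalso
      have h1 := hstar e
      have h2 : ∑ i ∈ I, zz w J p i e ^ 2 / bb J p i = 0 := by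
        refine Finset.sum_eq_zero fun i _ => ?_
        rw [zz_zero' hp0 h.symm]
        simp
      rw [h2, ← h] at h1
      have h3 : 0 < ‖e‖ := norm_pos_iff.mpr he
      have h4 : 0 < lam * ‖e‖ ^ 2 := by positivity
      linarith
    · exact h
  obtain ⟨v, hv⟩ := LinearMap.BilinForm.exists_orthogonal_basis (CC_symm w p)
  have hvne : ∀ k, v k ≠ 0 := fun k => v.ne_zero k
  have hvo : ∀ k l, k ≠ l → CC w p (v k) (v l) = 0 := fun k l hkl => hv hkl
  have hvpos : ∀ k, 0 < CC w p (v k) (v k) := fun k => hCpos _ (hvne k)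
  have hB : ∀ i, ∑ k, zz w J p i (v k) ^ 2 / CC w p (v k) (v k) ≤ bb J p i - bb J p i ^ 2 :=
    fun i => bessel hp0 hp1 h0 v hvo hvpos i
  -- sum over `k`
  have h1 : ∀ k, 1 < ∑ i ∈ I, zz w J p i (v k) ^ 2 / bb J p i / CC w p (v k) (v k) := by
    intro k
    rw [← Finset.sum_div, lt_div_iff₀ (hvpos k), one_mul]
    have h2 := hstar (v k)
    have h3 : 0 < ‖v k‖ := norm_pos_iff.mpr (hvne k)
    have h4 : 0 < lam * ‖v k‖ ^ 2 := by positivity
    linarith
  have h2 : (Module.finrank ℝ V : ℝ) <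
      ∑ k, ∑ i ∈ I, zz w J p i (v k) ^ 2 / bb J p i / CC w p (v k) (v k) := by
    have h3 : (Module.finrank ℝ V : ℝ) = ∑ _k : Fin (Module.finrank ℝ V), (1 : ℝ) := by simp
    rw [h3]
    refine Finset.sum_lt_sum_of_nonempty ?_ fun k _ => h1 k
    exact ⟨⟨0, hd⟩, Finset.mem_univ _⟩
  have h3 : ∑ k, ∑ i ∈ I, zz w J p i (v k) ^ 2 / bb J p i / CC w p (v k) (v k) ≤
      ∑ i ∈ I, (1 - bb J p i) := by
    rw [Finset.sum_comm]
    refine Finset.sum_le_sum fun i _ => ?_
    have h4 : ∑ k, zz w J p i (v k) ^ 2 / bb J p i / CC w p (v k) (v k) =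
        (∑ k, zz w J p i (v k) ^ 2 / CC w p (v k) (v k)) / bb J p i := by
      rw [Finset.sum_div]
      exact Finset.sum_congr rfl fun k _ => by rw [div_right_comm]
    rw [h4]
    rcases (bb_nonneg hp0 (J := J) i).eq_or_lt with hb | hb
    · rw [← hb]; simp
    · rw [div_le_iff₀ hb]
      have := hB i
      nlinarith
  have h5 : ∑ i ∈ I, bb J p i = m := by
    simp only [bb]
    rw [Finset.sum_comm]
    have h6 : ∀ ω, ∑ i ∈ I, p ω * chi J i ω = p ω * m := by
      intro ω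
      by_cases hω : p ω = 0
      · simp [hω]
      obtain ⟨hc, hs⟩ := hJ ω hω
      rw [← Finset.mul_sum]
      congr 1
      rw [← Finset.sum_subset hs (fun i _ hi => by rw [chi, if_neg hi])]
      have h7 : ∀ i ∈ J ω, chi J i ω = 1 := fun i hi => by rw [chi, if_pos hi]
      rw [Finset.sum_congr rfl h7, Finset.sum_const, hc, nsmul_eq_mul, mul_one]
    simp only [h6]
    rw [← Finset.sum_mul, hp1, one_mul]
  rw [Finset.sum_sub_distrib, h5, Finset.sum_const, hI, nsmul_eq_mul, mul_one] at h3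
  push_cast at h3
  linarith

end Pool.Agent.H395VI.T1
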