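import Pool.Agent.H395R5.VI.Defs

set_option autoImplicit false

/-! # T2 : clipping and homogeneity -/

namespace Pool.Agent.H395VI.T2

open scoped BigOperators
open Pool.Agent.H395VI

theorem main : ClipStmt := by
  intro V _ _ Ω ι _ _ _ w J m p lam R hR hp hw h e a
  rcases eq_or_ne e 0 with he | he
  · subst he
    have h1 : Phi w J m p 0 a ≤ 0 := by
      unfold Phi
      refine Finset.sum_nonpos fun ω _ => ?_
      rw [inner_zero_right]
      have h2 : 0 ≤ ∑ i ∈ J ω, (a i + 0) ^ 2 := Finset.sum_nonneg fun i _ => sq_nonneg _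
      have h3 := hp ω
      have h4 : ((m : ℝ) - 1) * (0 : ℝ) ^ 2 - ∑ i ∈ J ω, (a i + 0) ^ 2 ≤ 0 := by
        simp only [ne_eq, OfNat.ofNat_ne_zero, not_false_eq_true, zero_pow, mul_zero, zero_sub]
        linarith
      exact mul_nonpos_of_nonneg_of_nonpos h3 h4
    rw [norm_zero]
    have : lam * (0 : ℝ) ^ 2 = 0 := by ring
    rw [this]
    exact h1
  · have hn : 0 < ‖e‖ := norm_pos_iff.mpr he
    set e1 : V := (‖e‖)⁻¹ • e with he1
    have hne1 : ‖e1‖ = 1 := by
      rw [he1, norm_smul, norm_inv, norm_norm, inv_mul_cancel₀ hn.ne']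
    have hee : e = ‖e‖ • e1 := by
      rw [he1, smul_smul, mul_inv_cancel₀ hn.ne', one_smul]
    set b : ι → ℝ := fun i => max (-R) (min R ((‖e‖)⁻¹ * a i)) with hb
    have hb1 : ∀ i, |b i| ≤ R := by
      intro i
      rw [abs_le]
      refine ⟨le_max_left _ _, ?_⟩
      exact max_le (by linarith) (min_le_left _ _)
    have h1 := h e1 b hne1 hb1
    have h2 : Phi w J m p e a = ‖e‖ ^ 2 * Phi w J m p e1 (fun i => (‖e‖)⁻¹ * a i) := by
      unfold Phi
      rw [Finset.mul_sum]
      refine Finset.sum_congr rfl fun ω _ => ?_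
      have h3 : inner ℝ (w ω) e = ‖e‖ * inner ℝ (w ω) e1 := by
        conv_lhs => rw [hee]
        rw [inner_smul_right]
      have h4 : ∑ i ∈ J ω, (a i + inner ℝ (w ω) e) ^ 2 =
          ‖e‖ ^ 2 * ∑ i ∈ J ω, ((‖e‖)⁻¹ * a i + inner ℝ (w ω) e1) ^ 2 := by
        rw [Finset.mul_sum]
        refine Finset.sum_congr rfl fun i _ => ?_
        rw [h3, ← mul_pow]
        congr 1
        field_simp
      rw [h4, h3]
      ring
    have h5 : Phi w J m p e1 (fun i => (‖e‖)⁻¹ * a i) ≤ Phi w J m p e1 b := by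
      unfold Phi
      refine Finset.sum_le_sum fun ω _ => ?_
      refine mul_le_mul_of_nonneg_left ?_ (hp ω)
      refine sub_le_sub_left (Finset.sum_le_sum fun i _ => ?_) _
      have hf : |inner ℝ (w ω) e1| ≤ R := by
        refine (abs_real_inner_le_norm _ _).trans ?_
        rw [hne1, mul_one]
        exact hw ω
      rw [abs_le] at hf
      simp only [hb]
      set c : ℝ := (‖e‖)⁻¹ * a i
      set f : ℝ := inner ℝ (w ω) e1
      rcases le_total c (-R) with hc | hc
      · rw [min_eq_right (by linarith), max_eq_left hc]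
        nlinarith
      · rcases le_total c R with hc' | hc'
        · rw [min_eq_right hc', max_eq_right hc]
        · rw [min_eq_left hc', max_eq_right (by linarith)]
          nlinarith
    rw [h2]
    have h6 : 0 < ‖e‖ ^ 2 := by positivity
    nlinarith

end Pool.Agent.H395VI.T2
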