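import Pool.Agent.H395R5.VI.Defs

set_option autoImplicit false

/-! # T3: the extremal directions form a subspace -/

namespace Pool.Agent.H395VI.T3

open scoped BigOperators

open Pool.Agent.H395VI

section

variable {V : Type} [NormedAddCommGroup V] [InnerProductSpace ℝ V]
  {Ω ι : Type} [Fintype Ω] (w : Ω → V) (J : Ω → Finset ι) (m : ℕ) (p : Ω → ℝ)

theorem para (e e' : V) (a a' : ι → ℝ) :
    Phi w J m p (e + e') (a + a') + Phi w J m p (e - e') (a - a') =
      2 * Phi w J m p e a + 2 * Phi w J m p e' a' := by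
  unfold Phi
  rw [← Finset.sum_add_distrib, Finset.mul_sum, Finset.mul_sum, ← Finset.sum_add_distrib]
  refine Finset.sum_congr rfl fun ω _ => ?_
  have h1 : (∑ i ∈ J ω, ((a + a') i + inner ℝ (w ω) (e + e')) ^ 2) +
      ∑ i ∈ J ω, ((a - a') i + inner ℝ (w ω) (e - e')) ^ 2 =
      2 * (∑ i ∈ J ω, (a i + inner ℝ (w ω) e) ^ 2) +
      2 * ∑ i ∈ J ω, (a' i + inner ℝ (w ω) e') ^ 2 := by
    rw [← Finset.sum_add_distrib, Finset.mul_sum, Finset.mul_sum, ← Finset.sum_add_distrib]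
    refine Finset.sum_congr rfl fun i _ => ?_
    rw [inner_add_right, inner_sub_right, Pi.add_apply, Pi.sub_apply]
    ring
  have h2 : (inner ℝ (w ω) (e + e') : ℝ) ^ 2 + (inner ℝ (w ω) (e - e') : ℝ) ^ 2 =
      2 * (inner ℝ (w ω) e : ℝ) ^ 2 + 2 * (inner ℝ (w ω) e' : ℝ) ^ 2 := by
    rw [inner_add_right, inner_sub_right]
    ring
  linear_combination (p ω * ((m : ℝ) - 1)) * h2 - p ω * h1

theorem smul_eq (c : ℝ) (e : V) (a : ι → ℝ) :
    Phi w J m p (c • e) (c • a) = c ^ 2 * Phi w J m p e a := by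
  unfold Phi
  rw [Finset.mul_sum]
  refine Finset.sum_congr rfl fun ω _ => ?_
  have h1 : (∑ i ∈ J ω, ((c • a) i + inner ℝ (w ω) (c • e)) ^ 2) =
      c ^ 2 * ∑ i ∈ J ω, (a i + inner ℝ (w ω) e) ^ 2 := by
    rw [Finset.mul_sum]
    refine Finset.sum_congr rfl fun i _ => ?_
    rw [inner_smul_right, Pi.smul_apply, smul_eq_mul]
    ring
  rw [h1, inner_smul_right]
  ring

end

theorem main : SubspaceStmt := by
  intro V _ _ Ω ι _ _ _ w J m p lam hb
  refine ⟨{ carrier := {e | ∃ a : ι → ℝ, Phi w J m p e a = lam * ‖e‖ ^ 2}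
            add_mem' := ?_
            zero_mem' := ?_
            smul_mem' := ?_ }, fun e => Iff.rfl⟩
  · rintro e e' ⟨a, ha⟩ ⟨a', ha'⟩
    refine ⟨a + a', ?_⟩
    have h1 := para w J m p e e' a a'
    have h2 := hb (e + e') (a + a')
    have h3 := hb (e - e') (a - a')
    have h4 := parallelogram_law_with_norm ℝ e e'
    rw [ha, ha'] at h1
    have h5 : lam * ‖e + e'‖ ^ 2 + lam * ‖e - e'‖ ^ 2 =
        2 * (lam * ‖e‖ ^ 2) + 2 * (lam * ‖e'‖ ^ 2) := by
      linear_combination lam * h4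
    linarith
  · refine ⟨0, ?_⟩
    simp [Phi]
  · rintro c e ⟨a, ha⟩
    refine ⟨c • a, ?_⟩
    rw [smul_eq, ha, norm_smul, mul_pow, Real.norm_eq_abs, sq_abs]
    ring

end Pool.Agent.H395VI.T3
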