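import Pool.Agent.H395R5.VI.Defs

/-! # The vertex index of the ball: minimisation over the compact convex set (T4) -/

set_option autoImplicit false

namespace Pool.Agent.H395VI.T4

open scoped BigOperators

theorem main : TraceStmt → ClipStmt → SubspaceStmt → PerturbStmt → CoreStmt := by
  intro hT hC hS hP V _ _ _ Ω ι _ _ _ w J I m M hMc hMconv hMs hM0 hMJ hI hfin hW
  classical
  have hnt : Nontrivial V := Module.nontrivial_of_finrank_pos hfin
  -- the bound
  set R : ℝ := ∑ ω, ‖w ω‖ with hRdef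
  have hR0 : 0 ≤ R := Finset.sum_nonneg (fun ω _ => norm_nonneg _)
  have hwR : ∀ ω, ‖w ω‖ ≤ R := fun ω =>
    Finset.single_le_sum (f := fun ω => ‖w ω‖) (fun ω _ => norm_nonneg _) (Finset.mem_univ ω)
  -- the compact set
  set K : Set (V × (ι → ℝ)) := Metric.sphere (0 : V) 1 ×ˢ Set.pi Set.univ (fun _ => Set.Icc (-R) R)
    with hK
  have hKc : IsCompact K :=
    (isCompact_sphere (0 : V) 1).prod (isCompact_univ_pi (fun _ => isCompact_Icc))
  have hKmem : ∀ (e : V) (a : ι → ℝ), (e, a) ∈ K ↔ ‖e‖ = 1 ∧ ∀ i, |a i| ≤ R := by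
    intro e a
    rw [hK, Set.mem_prod, mem_sphere_zero_iff_norm, Set.mem_univ_pi]
    simp only [Set.mem_Icc, abs_le]
  have hKne : K.Nonempty := by
    obtain ⟨e, he⟩ := exists_norm_eq V (zero_le_one' ℝ)
    refine ⟨(e, fun _ => 0), (hKmem _ _).2 ⟨he, fun i => ?_⟩⟩
    simpa using hR0
  -- nonemptiness of `M`
  have hMne : M.Nonempty := by
    obtain ⟨p, hp, -⟩ := hW ⊥ bot_ne_top
    exact ⟨p, hp⟩
  -- the maximum
  set F : (Ω → ℝ) → V × (ι → ℝ) → ℝ := fun p x => Phi w J m p x.1 x.2 with hF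
  have hFc : Continuous (Function.uncurry F) := by
    have : Function.uncurry F = fun y : (Ω → ℝ) × (V × (ι → ℝ)) =>
        ∑ ω, y.1 ω * (((m : ℝ) - 1) * (inner ℝ (w ω) y.2.1) ^ 2
          - ∑ i ∈ J ω, (y.2.2 i + inner ℝ (w ω) y.2.1) ^ 2) := rfl
    rw [this]
    fun_prop
  have hFc1 : ∀ p, Continuous (F p) := fun p => hFc.comp (Continuous.prodMk_right p)
  set Lam : (Ω → ℝ) → ℝ := fun p => sSup (F p '' K) with hLam
  have hLamc : Continuous Lam := IsCompact.continuous_sSup hKc hFc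
  have hle : ∀ p, ∀ x ∈ K, F p x ≤ Lam p := fun p x hx =>
    le_csSup (hKc.image (hFc1 p)).bddAbove ⟨x, hx, rfl⟩
  obtain ⟨p, hpM, hpmin⟩ := hMc.exists_isMinOn hMne hLamc.continuousOn
  have hps := hMs hpM
  have hbound : ∀ (e : V) (a : ι → ℝ), Phi w J m p e a ≤ Lam p * ‖e‖ ^ 2 := by
    refine hC V Ω ι w J m p (Lam p) R hR0 (fun ω => hps.1 ω) hwR ?_
    intro e a he ha
    exact hle p (e, a) ((hKmem e a).2 ⟨he, ha⟩)
  rcases le_or_gt (Lam p) 0 with hlam | hlam
  · refine ⟨p, hpM, fun e a => (hbound e a).trans ?_⟩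
    exact mul_nonpos_of_nonpos_of_nonneg hlam (by positivity)
  · exfalso
    obtain ⟨S, hSm⟩ := hS V Ω ι w J m p (Lam p) hbound
    by_cases hST : S = ⊤
    · refine hT V Ω ι w J I m p (Lam p) hps (hM0 p hpM) (hMJ p hpM) hI hfin hlam ?_
      intro e
      obtain ⟨a, ha⟩ := (hSm e).1 (by rw [hST]; exact Submodule.mem_top)
      exact ⟨a, ha.ge⟩
    · obtain ⟨q, hqM, hq⟩ := hW S hST
      obtain ⟨t, ht0, ht1, ht⟩ := hP V Ω ι w J m p q (Lam p) R hlam hbound
        (fun e he a => hq e ((hSm e).2 he) a)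
      have hmem : (fun ω => (1 - t) * p ω + t * q ω) ∈ M := by
        have h0 := hMconv hpM hqM (by linarith : (0 : ℝ) ≤ 1 - t) ht0.le (by ring)
        have h1 : (fun ω => (1 - t) * p ω + t * q ω) = (1 - t) • p + t • q := by
          funext ω
          simp
        rw [h1]
        exact h0
      have h1 : Lam p ≤ Lam (fun ω => (1 - t) * p ω + t * q ω) := hpmin hmem
      obtain ⟨x, hx, hxe⟩ := (hKc.image (hFc1 (fun ω => (1 - t) * p ω + t * q ω))).sSup_mem
        (hKne.image _)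
      obtain ⟨e, a⟩ := x
      have h2 := (hKmem e a).1 hx
      have h3 := ht e a h2.1 h2.2
      have h4 : Lam (fun ω => (1 - t) * p ω + t * q ω) =
        Phi w J m (fun ω => (1 - t) * p ω + t * q ω) e a := hxe.symm
      linarith

end Pool.Agent.H395VI.T4
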