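import Mathlib
import Pool.Agent.H395R5.VI.Defs

set_option autoImplicit false

namespace Pool.Agent.H395VI.T5

open scoped BigOperators
open Pool.Agent.H395VI

theorem aux {X : Type} [TopologicalSpace X] (K : Set X) (hK : IsCompact K) (P Q : X → ℝ)
    (hP : Continuous P) (hQ : Continuous Q) (lam : ℝ) (hlam : 0 < lam)
    (h1 : ∀ x ∈ K, P x ≤ lam) (h2 : ∀ x ∈ K, P x = lam → Q x ≤ 0) :
    ∃ t : ℝ, 0 < t ∧ t < 1 ∧ ∀ x ∈ K, (1 - t) * P x + t * Q x < lam := by
  classical
  set K' : Set X := K ∩ {x | lam ≤ Q x} with hK'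
  have hcl : IsClosed {x | lam ≤ Q x} := isClosed_le continuous_const hQ
  have hK'c : IsCompact K' := hK.inter_right hcl
  rcases K'.eq_empty_or_nonempty with he | hne
  · refine ⟨1 / 2, by norm_num, by norm_num, ?_⟩
    intro x hx
    have hq : Q x < lam := by
      by_contra hcon
      push Not at hcon
      have : x ∈ K' := ⟨hx, hcon⟩
      rw [he] at this
      exact this
    have := h1 x hx
    linarith
  · obtain ⟨x0, hx0, hmax0⟩ := hK'c.exists_isMaxOn hne hP.continuousOn
    obtain ⟨x1, hx1, hmax1⟩ := hK.exists_isMaxOn ⟨x0, hx0.1⟩ hQ.continuousOn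
    have hlt : P x0 < lam := by
      rcases lt_or_eq_of_le (h1 x0 hx0.1) with h | h
      · exact h
      · have := h2 x0 hx0.1 h
        have h3 : lam ≤ Q x0 := hx0.2
        linarith
    have hQ1 : lam ≤ Q x1 := le_trans hx0.2 (hmax1 hx0.1)
    have hD : 0 < Q x1 - P x0 + 1 := by linarith
    set t : ℝ := (lam - P x0) / (2 * (Q x1 - P x0 + 1)) with ht
    have ht0 : 0 < t := by
      rw [ht]; apply div_pos <;> linarith
    have htD : t * (Q x1 - P x0 + 1) = (lam - P x0) / 2 := by
      rw [ht]; field_simp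
    have ht1 : t < 1 := by
      rw [ht, div_lt_one (by linarith)]
      linarith
    refine ⟨t, ht0, ht1, ?_⟩
    intro x hx
    by_cases hxx : lam ≤ Q x
    · have hp : P x ≤ P x0 := hmax0 (show x ∈ K' from ⟨hx, hxx⟩)
      have hq : Q x ≤ Q x1 := hmax1 hx
      have e1 : (1 - t) * P x ≤ (1 - t) * P x0 := mul_le_mul_of_nonneg_left hp (by linarith)
      have e2 : t * Q x ≤ t * Q x1 := mul_le_mul_of_nonneg_left hq ht0.le
      nlinarith
    · push Not at hxx
      have e1 : (1 - t) * P x ≤ (1 - t) * lam := mul_le_mul_of_nonneg_left (h1 x hx) (by linarith)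
      have e2 : t * Q x < t * lam := mul_lt_mul_of_pos_left hxx ht0
      nlinarith

theorem main : PerturbStmt := by
  intro V _ _ _ Ω ι _ _ _ w J m p q lam R hlam hp hq
  have hcont : ∀ r : Ω → ℝ, Continuous (fun x : V × (ι → ℝ) => Phi w J m r x.1 x.2) := by
    intro r
    unfold Phi
    fun_prop
  set K : Set (V × (ι → ℝ)) :=
    (Metric.sphere (0 : V) 1) ×ˢ (Set.univ.pi fun _ : ι => Set.Icc (-R) R) with hK
  have hKc : IsCompact K :=
    (isCompact_sphere (0 : V) 1).prod (isCompact_univ_pi fun _ => isCompact_Icc)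
  have hmem : ∀ (e : V) (a : ι → ℝ), ‖e‖ = 1 → (∀ i, |a i| ≤ R) → (e, a) ∈ K := by
    intro e a he ha
    refine ⟨by simpa using he, ?_⟩
    intro i _
    exact abs_le.mp (ha i)
  have hK1 : ∀ x ∈ K, ‖x.1‖ = 1 := by
    intro x hx
    simpa using hx.1
  obtain ⟨t, ht0, ht1, ht⟩ := aux K hKc (fun x => Phi w J m p x.1 x.2)
    (fun x => Phi w J m q x.1 x.2) (hcont p) (hcont q) lam hlam
    (by
      intro x hx
      have := hp x.1 x.2
      rw [hK1 x hx] at this
      simpa using this)
    (by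
      intro x hx hxe
      refine hq x.1 ⟨x.2, ?_⟩ x.2
      rw [hK1 x hx]
      simpa using hxe)
  refine ⟨t, ht0, ht1, ?_⟩
  intro e a he ha
  have h := ht (e, a) (hmem e a he ha)
  have hlin : Phi w J m (fun ω => (1 - t) * p ω + t * q ω) e a
      = (1 - t) * Phi w J m p e a + t * Phi w J m q e a := by
    unfold Phi
    rw [Finset.mul_sum, Finset.mul_sum, ← Finset.sum_add_distrib]
    apply Finset.sum_congr rfl
    intro ω _
    ring
  rw [hlin]
  exact h

end Pool.Agent.H395VI.T5
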