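import Mathlib
import Pool.Agent.H395R5.VI.Defs

set_option autoImplicit false

namespace Pool.Agent.H395VI.U1

open scoped BigOperators

theorem main : UpperStmt := by
  intro n hn
  classical
  have hn0 : (0 : ℝ) < n := by exact_mod_cast hn
  obtain ⟨r, hr, hr2⟩ : ∃ r : ℝ, 0 < r ∧ r * r = n :=
    ⟨Real.sqrt n, Real.sqrt_pos.2 hn0, Real.mul_self_sqrt hn0.le⟩
  let z : Fin n × Bool → EuclideanSpace ℝ (Fin n) :=
    fun q => EuclideanSpace.single q.1 (if q.2 then r else -r)
  have hz : ∀ q, ‖z q‖ = r := by
    intro q
    simp only [z]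
    rw [PiLp.norm_single]
    split_ifs <;> simp [abs_of_pos hr]
  have hzinj : Function.Injective z := by
    rintro ⟨i, b⟩ ⟨j, b'⟩ h
    have h1 : ∀ k, z (i, b) k = z (j, b') k := fun k => by rw [h]
    have h2 := h1 i
    simp only [z, PiLp.single_apply, if_true] at h2
    by_cases hij : i = j
    · subst hij
      simp only [if_true] at h2
      cases b <;> cases b'
      · rfl
      · exfalso
        simp only [Bool.false_eq_true, if_false, if_true] at h2
        linarith
      · exfalso
        simp only [Bool.false_eq_true, if_false, if_true] at h2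
        linarith
      · rfl
    · rw [if_neg hij] at h2
      exfalso
      cases b
      · simp only [Bool.false_eq_true, if_false] at h2
        linarith
      · simp only [if_true] at h2
        linarith
  refine ⟨Finset.univ.image z, ?_, ?_⟩
  · intro y hy
    have hy1 : ‖y‖ ≤ 1 := by simpa using hy
    have hs : (∑ i, |y i|) ≤ r := by
      have h1 : (∑ i, |y i|) ^ 2 ≤ (n : ℝ) * ∑ i, |y i| ^ 2 := by
        have := sq_sum_le_card_mul_sum_sq (s := (Finset.univ : Finset (Fin n))) (f := fun i => |y i|)
        simpa using this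
      have h2 : ∑ i, |y i| ^ 2 = ‖y‖ ^ 2 := by
        rw [EuclideanSpace.norm_sq_eq]
        simp
      have h3 : ‖y‖ ^ 2 ≤ 1 := by
        have := norm_nonneg y
        nlinarith
      have h4 : (∑ i, |y i|) ^ 2 ≤ r ^ 2 := by
        rw [h2] at h1
        nlinarith
      exact le_of_sq_le_sq h4 hr.le |> fun h => h
    set s : ℝ := ∑ i, |y i| with hsdef
    let w : Fin n × Bool → ℝ := fun q =>
      (|y q.1| + (if q.2 then y q.1 else -y q.1)) / (2 * r) + (1 - s / r) / (2 * n)
    have hw0 : ∀ q, 0 ≤ w q := by
      intro q
      have h1 : 0 ≤ |y q.1| + (if q.2 then y q.1 else -y q.1) := by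
        split_ifs
        · linarith [neg_abs_le (y q.1)]
        · linarith [le_abs_self (y q.1)]
      have h2 : 0 ≤ 1 - s / r := by
        rw [sub_nonneg, div_le_one hr]
        exact hs
      simp only [w]
      positivity
    have hw1 : ∑ q, w q = 1 := by
      rw [Fintype.sum_prod_type]
      simp only [w, Fintype.sum_bool, if_true, Bool.false_eq_true, if_false]
      have : ∀ i : Fin n, (|y i| + y i) / (2 * r) + (1 - s / r) / (2 * n) +
          ((|y i| + -y i) / (2 * r) + (1 - s / r) / (2 * n)) = |y i| / r + (1 - s / r) / n := by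
        intro i
        field_simp
        ring
      rw [Finset.sum_congr rfl (fun i _ => this i), Finset.sum_add_distrib, ← Finset.sum_div,
        ← hsdef]
      simp only [Finset.sum_const, Finset.card_univ, Fintype.card_fin, nsmul_eq_mul]
      field_simp
      ring
    have hyz : y = ∑ q, w q • z q := by
      ext k
      rw [Fintype.sum_prod_type]
      simp only [w, Fintype.sum_bool, if_true, Bool.false_eq_true, if_false, z]
      have : ∀ i : Fin n, ((((|y i| + y i) / (2 * r) + (1 - s / r) / (2 * n)) •
          (EuclideanSpace.single i r : EuclideanSpace ℝ (Fin n)) +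
          ((|y i| + -y i) / (2 * r) + (1 - s / r) / (2 * n)) •
          (EuclideanSpace.single i (-r) : EuclideanSpace ℝ (Fin n))) : EuclideanSpace ℝ (Fin n)) k
          = if k = i then y i else 0 := by
        intro i
        simp only [PiLp.add_apply, PiLp.smul_apply, PiLp.single_apply, smul_eq_mul]
        split_ifs
        · field_simp
          ring
        · simp
      have e : (∑ i : Fin n, ((((|y i| + y i) / (2 * r) + (1 - s / r) / (2 * n)) •
          (EuclideanSpace.single i r : EuclideanSpace ℝ (Fin n)) +
          ((|y i| + -y i) / (2 * r) + (1 - s / r) / (2 * n)) •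
          (EuclideanSpace.single i (-r) : EuclideanSpace ℝ (Fin n))) : EuclideanSpace ℝ (Fin n))) k
          = ∑ i : Fin n, ((((|y i| + y i) / (2 * r) + (1 - s / r) / (2 * n)) •
          (EuclideanSpace.single i r : EuclideanSpace ℝ (Fin n)) +
          ((|y i| + -y i) / (2 * r) + (1 - s / r) / (2 * n)) •
          (EuclideanSpace.single i (-r) : EuclideanSpace ℝ (Fin n))) : EuclideanSpace ℝ (Fin n)) k := by
        rw [WithLp.ofLp_sum, Finset.sum_apply]
      rw [e, Finset.sum_congr rfl (fun i _ => this i)]
      simp
    rw [hyz]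
    refine (convex_convexHull ℝ _).sum_mem (fun q _ => hw0 q) hw1 (fun q _ => ?_)
    apply subset_convexHull
    simp
  · rw [Finset.sum_image (fun a _ b _ h => hzinj h)]
    simp only [hz, Finset.sum_const, Finset.card_univ, Fintype.card_prod, Fintype.card_fin,
      Fintype.card_bool, nsmul_eq_mul]
    have hr' : r = (n : ℝ) ^ ((1 : ℝ) / 2) := by
      rw [← Real.sqrt_eq_rpow, ← hr2, Real.sqrt_mul_self hr.le]
    have : (n : ℝ) ^ ((3 : ℝ) / 2) = n * r := by
      rw [hr', show ((3 : ℝ) / 2) = 1 + 1 / 2 by norm_num, Real.rpow_add hn0, Real.rpow_one]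
    rw [this]
    push_cast
    ring

end Pool.Agent.H395VI.U1
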